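import Pool.Agent.Y573.Pin.Region
import Pool.Agent.Y573.Pin.RA
import Pool.Agent.Y573.Pin.RB
import Pool.Agent.Y573.Pin.RC
import Pool.Agent.Y573.Pin.RD
import Pool.Agent.Y573.Pin.RE
import Pool.Agent.Y573.Pin.RF
import Pool.Agent.Y573.Pin.RG
import Pool.Agent.H210R2.PinF

/-! # Real-valued pinwheel scheduling: the density 5/6 -/

set_option autoImplicit false

namespace Pool.Agent.Y573.Pin

/-- common form of the hypotheses -/
structure Inst (A : List ℝ) : Prop where
  sorted : A.Pairwise (· ≤ ·)
  pos : ∀ x ∈ A, 0 < x
  dens : dens A ≤ 5 / 6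

lemma regA (a : ℝ) (t : List ℝ) (h : Inst (a :: t)) (h1 : 5 / 3 < a) (h2 : a ≤ 2) :
    Sch (a :: t) := by
  have hs := (List.pairwise_cons.mp h.sorted).1
  have := fold_region (M := 144403552893600) (Rm := 129361516133850) (θ := 16) (by norm_num)
    (by norm_num) [240672588156000] [72201776446800] 240672588156000 13
    (check_sound (by norm_num) (by norm_num) rA _ _ (by simp) rA_ok) (by norm_num) [a] t (5 / 3)
    (fun x hx => lt_of_lt_of_le h1 (hs x hx)) (by norm_num) h.sorted
    (by intro x hx; rw [List.mem_singleton.mp hx]; push_cast; linarith) h.pos h.dens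
    (by norm_num) (List.Forall₂.cons (by push_cast; linarith) List.Forall₂.nil)
    (List.Forall₂.cons (by push_cast; linarith) List.Forall₂.nil)
  exact this

lemma regB (a : ℝ) (t : List ℝ) (h : Inst (a :: t)) (h1 : 2 < a) (h2 : a ≤ 5 / 2) :
    Sch (a :: t) := by
  have hs := (List.pairwise_cons.mp h.sorted).1
  have := fold_region (M := 144403552893600) (Rm := 130650833570400) (θ := 14) (by norm_num)
    (by norm_num) [288807105787200] [57761421157440] 288807105787200 11
    (check_sound (by norm_num) (by norm_num) rB _ _ (by simp) rB_ok) (by norm_num) [a] t 2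
    (fun x hx => lt_of_lt_of_le h1 (hs x hx)) (by norm_num) h.sorted
    (by intro x hx; rw [List.mem_singleton.mp hx]; push_cast; linarith) h.pos h.dens
    (by norm_num) (List.Forall₂.cons (by push_cast; linarith) List.Forall₂.nil)
    (List.Forall₂.cons (by push_cast; linarith) List.Forall₂.nil)
  exact this

lemma regC1 (a b : ℝ) (t : List ℝ) (h : Inst (a :: b :: t)) (h1 : 5 / 2 < a) (h2 : a ≤ 3)
    (h4 : b ≤ 7 / 2) : Sch (a :: b :: t) := by
  have hs := List.pairwise_cons.mp h.sorted
  have hab : a ≤ b := hs.1 b List.mem_cons_self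
  have hs2 := (List.pairwise_cons.mp hs.2).1
  have := fold_region (M := 144403552893600) (Rm := 130650833570400) (θ := 14) (by norm_num)
    (by norm_num) [361008882234000, 361008882234000] [48134517631200, 41258157969600]
    361008882234000 10
    (check_sound (by norm_num) (by norm_num) rC1 _ _ (by simp) rC1_ok) (by norm_num) [a, b] t
    (5 / 2)
    (fun x hx => lt_of_lt_of_le (lt_of_lt_of_le h1 hab) (hs2 x hx)) (by norm_num) h.sorted
    (by
      intro x hx
      simp only [List.mem_cons, List.not_mem_nil, or_false] at hx
      rcases hx with rfl | rfl <;> push_cast <;> linarith) h.pos h.dens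
    (by norm_num)
    (List.Forall₂.cons (by push_cast; linarith)
      (List.Forall₂.cons (by push_cast; linarith) List.Forall₂.nil))
    (List.Forall₂.cons (by push_cast; linarith)
      (List.Forall₂.cons (by push_cast; linarith) List.Forall₂.nil))
  exact this

lemma regC2 (a b c : ℝ) (t : List ℝ) (h : Inst (a :: b :: c :: t)) (h1 : 5 / 2 < a) (h2 : a ≤ 3)
    (h3 : 7 / 2 < b) (h4 : b ≤ 4) (h6 : c ≤ 6) : Sch (a :: b :: c :: t) := by
  have hs := List.pairwise_cons.mp h.sorted
  have hs2 := List.pairwise_cons.mp hs.2
  have hbc : b ≤ c := hs2.1 c List.mem_cons_self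
  have hs3 := (List.pairwise_cons.mp hs2.2).1
  have := fold_region (M := 144403552893600) (Rm := 129361516133850) (θ := 16) (by norm_num)
    (by norm_num) [361008882234000, 505412435127600, 505412435127600]
    [48134517631200, 36100888223400, 24067258815600] 505412435127600 11
    (check_sound (by norm_num) (by norm_num) rC2 _ _ (by simp) rC2_ok) (by norm_num) [a, b, c] t
    (7 / 2)
    (fun x hx => lt_of_lt_of_le (lt_of_lt_of_le h3 hbc) (hs3 x hx)) (by norm_num) h.sorted
    (by
      intro x hx
      simp only [List.mem_cons, List.not_mem_nil, or_false] at hx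
      rcases hx with rfl | rfl | rfl <;> push_cast <;> linarith) h.pos h.dens
    (by norm_num)
    (List.Forall₂.cons (by push_cast; linarith)
      (List.Forall₂.cons (by push_cast; linarith)
        (List.Forall₂.cons (by push_cast; linarith) List.Forall₂.nil)))
    (List.Forall₂.cons (by push_cast; linarith)
      (List.Forall₂.cons (by push_cast; linarith)
        (List.Forall₂.cons (by push_cast; linarith) List.Forall₂.nil)))
  exact this

lemma regC3 (a b c : ℝ) (t : List ℝ) (h : Inst (a :: b :: c :: t)) (h1 : 5 / 2 < a) (h2 : a ≤ 3)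
    (h3 : 7 / 2 < b) (h4 : b ≤ 4) (h5 : 6 < c) (h6 : c ≤ 7) : Sch (a :: b :: c :: t) := by
  have hs := List.pairwise_cons.mp h.sorted
  have hs2 := List.pairwise_cons.mp hs.2
  have hs3 := (List.pairwise_cons.mp hs2.2).1
  have := fold_region (M := 144403552893600) (Rm := 127556471722680) (θ := 20) (by norm_num)
    (by norm_num) [361008882234000, 505412435127600, 866421317361600]
    [48134517631200, 36100888223400, 20629078984800] 866421317361600 14
    (check_sound (by norm_num) (by norm_num) rC3 _ _ (by simp) rC3_ok) (by norm_num) [a, b, c] t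
    6
    (fun x hx => lt_of_lt_of_le h5 (hs3 x hx)) (by norm_num) h.sorted
    (by
      intro x hx
      simp only [List.mem_cons, List.not_mem_nil, or_false] at hx
      rcases hx with rfl | rfl | rfl <;> push_cast <;> linarith) h.pos h.dens
    (by norm_num)
    (List.Forall₂.cons (by push_cast; linarith)
      (List.Forall₂.cons (by push_cast; linarith)
        (List.Forall₂.cons (by push_cast; linarith) List.Forall₂.nil)))
    (List.Forall₂.cons (by push_cast; linarith)
      (List.Forall₂.cons (by push_cast; linarith)
        (List.Forall₂.cons (by push_cast; linarith) List.Forall₂.nil)))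
  exact this

lemma regC4 (a b : ℝ) (t : List ℝ) (h : Inst (a :: b :: t)) (h1 : 5 / 2 < a) (h2 : a ≤ 3)
    (h3 : 7 / 2 < b) (h4 : b ≤ 4) (ht : ∀ x ∈ t, 7 < x) : Sch (a :: b :: t) := by
  have := fold_region (M := 144403552893600) (Rm := 129361516133850) (θ := 16) (by norm_num)
    (by norm_num) [361008882234000, 505412435127600] [48134517631200, 36100888223400]
    1010824870255200 12
    (check_sound (by norm_num) (by norm_num) rC4 _ _ (by simp) rC4_ok) (by norm_num) [a, b] t 7
    ht (by norm_num) h.sorted
    (by
      intro x hx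
      simp only [List.mem_cons, List.not_mem_nil, or_false] at hx
      rcases hx with rfl | rfl <;> push_cast <;> linarith) h.pos h.dens
    (by norm_num)
    (List.Forall₂.cons (by push_cast; linarith)
      (List.Forall₂.cons (by push_cast; linarith) List.Forall₂.nil))
    (List.Forall₂.cons (by push_cast; linarith)
      (List.Forall₂.cons (by push_cast; linarith) List.Forall₂.nil))
  exact this

lemma regC5 (a : ℝ) (t : List ℝ) (h : Inst (a :: t)) (h1 : 5 / 2 < a) (h2 : a ≤ 3)
    (ht : ∀ x ∈ t, 4 < x) : Sch (a :: t) := by
  have := fold_region (M := 144403552893600) (Rm := 130650833570400) (θ := 14) (by norm_num)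
    (by norm_num) [361008882234000] [48134517631200] 577614211574400 11
    (check_sound (by norm_num) (by norm_num) rC5 _ _ (by simp) rC5_ok) (by norm_num) [a] t 4
    ht (by norm_num) h.sorted
    (by intro x hx; rw [List.mem_singleton.mp hx]; push_cast; linarith) h.pos h.dens
    (by norm_num) (List.Forall₂.cons (by push_cast; linarith) List.Forall₂.nil)
    (List.Forall₂.cons (by push_cast; linarith) List.Forall₂.nil)
  exact this

lemma regD (a : ℝ) (t : List ℝ) (h : Inst (a :: t)) (h1 : 3 < a) (h2 : a ≤ 4) :
    Sch (a :: t) := by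
  have hs := (List.pairwise_cons.mp h.sorted).1
  have := fold_region (M := 144403552893600) (Rm := 130650833570400) (θ := 14) (by norm_num)
    (by norm_num) [433210658680800] [36100888223400] 433210658680800 11
    (check_sound (by norm_num) (by norm_num) rD _ _ (by simp) rD_ok) (by norm_num) [a] t 3
    (fun x hx => lt_of_lt_of_le h1 (hs x hx)) (by norm_num) h.sorted
    (by intro x hx; rw [List.mem_singleton.mp hx]; push_cast; linarith) h.pos h.dens
    (by norm_num) (List.Forall₂.cons (by push_cast; linarith) List.Forall₂.nil)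
    (List.Forall₂.cons (by push_cast; linarith) List.Forall₂.nil)
  exact this

lemma regE (a : ℝ) (t : List ℝ) (h : Inst (a :: t)) (h1 : 4 < a) (h2 : a ≤ 5) :
    Sch (a :: t) := by
  have hs := (List.pairwise_cons.mp h.sorted).1
  have := fold_region (M := 144403552893600) (Rm := 131444259685200) (θ := 13) (by norm_num)
    (by norm_num) [577614211574400] [28880710578720] 577614211574400 10
    (check_sound (by norm_num) (by norm_num) rE _ _ (by simp) rE_ok) (by norm_num) [a] t 4
    (fun x hx => lt_of_lt_of_le h1 (hs x hx)) (by norm_num) h.sorted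
    (by intro x hx; rw [List.mem_singleton.mp hx]; push_cast; linarith) h.pos h.dens
    (by norm_num) (List.Forall₂.cons (by push_cast; linarith) List.Forall₂.nil)
    (List.Forall₂.cons (by push_cast; linarith) List.Forall₂.nil)
  exact this

lemma regF (a : ℝ) (t : List ℝ) (h : Inst (a :: t)) (h1 : 5 < a) (h2 : a ≤ 6) :
    Sch (a :: t) := by
  have hs := (List.pairwise_cons.mp h.sorted).1
  have := fold_region (M := 144403552893600) (Rm := 132369923485800) (θ := 12) (by norm_num)
    (by norm_num) [722017764468000] [24067258815600] 722017764468000 9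
    (check_sound (by norm_num) (by norm_num) rF _ _ (by simp) rF_ok) (by norm_num) [a] t 5
    (fun x hx => lt_of_lt_of_le h1 (hs x hx)) (by norm_num) h.sorted
    (by intro x hx; rw [List.mem_singleton.mp hx]; push_cast; linarith) h.pos h.dens
    (by norm_num) (List.Forall₂.cons (by push_cast; linarith) List.Forall₂.nil)
    (List.Forall₂.cons (by push_cast; linarith) List.Forall₂.nil)
  exact this

lemma regG (t : List ℝ) (h : Inst t) (ht : ∀ x ∈ t, 6 < x) : Sch t := by
  have := fold_region (M := 144403552893600) (Rm := 132369923485800) (θ := 12) (by norm_num)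
    (by norm_num) [] [] 866421317361600 10
    (check_sound (by norm_num) (by norm_num) rG _ _ (by simp) rG_ok) (by norm_num) [] t 6
    ht (by norm_num) h.sorted (by simp) h.pos h.dens (by norm_num) List.Forall₂.nil
    List.Forall₂.nil
  exact this

/-- Every instance of density at most `5/6` whose periods exceed `5/3` is schedulable. -/
theorem sch_sorted (A : List ℝ) (h : Inst A) (h1 : ∀ x ∈ A, 5 / 3 < x) : Sch A := by
  match A, h, h1 with
  | [], _, _ => exact ⟨[], rfl, by simp, List.Pairwise.nil⟩
  | a :: t, h, h1 =>
    have ha := h1 a List.mem_cons_self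
    have hs := List.pairwise_cons.mp h.sorted
    by_cases c1 : a ≤ 2
    · exact regA a t h ha c1
    push Not at c1
    by_cases c2 : a ≤ 5 / 2
    · exact regB a t h c1 c2
    push Not at c2
    by_cases c3 : a ≤ 3
    · match t, h, hs with
      | [], h, _ => exact regC5 a [] h c2 c3 (by simp)
      | b :: t, h, hs =>
        by_cases d1 : b ≤ 7 / 2
        · exact regC1 a b t h c2 c3 d1
        push Not at d1
        by_cases d2 : b ≤ 4
        · match t, h, hs with
          | [], h, _ => exact regC4 a b [] h c2 c3 d1 d2 (by simp)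
          | c :: t, h, hs =>
            by_cases e1 : c ≤ 6
            · exact regC2 a b c t h c2 c3 d1 d2 e1
            push Not at e1
            by_cases e2 : c ≤ 7
            · exact regC3 a b c t h c2 c3 d1 d2 e1 e2
            push Not at e2
            apply regC4 a b (c :: t) h c2 c3 d1 d2
            intro x hx
            have hs2 := List.pairwise_cons.mp (List.pairwise_cons.mp hs.2).2
            rcases List.mem_cons.mp hx with rfl | hx
            · exact e2
            · exact lt_of_lt_of_le e2 (hs2.1 x hx)
        · push Not at d2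
          apply regC5 a (b :: t) h c2 c3
          intro x hx
          have hs2 := List.pairwise_cons.mp hs.2
          rcases List.mem_cons.mp hx with rfl | hx
          · exact d2
          · exact lt_of_lt_of_le d2 (hs2.1 x hx)
    push Not at c3
    by_cases c4 : a ≤ 4
    · exact regD a t h c3 c4
    push Not at c4
    by_cases c5 : a ≤ 5
    · exact regE a t h c4 c5
    push Not at c5
    by_cases c6 : a ≤ 6
    · exact regF a t h c5 c6
    push Not at c6
    apply regG (a :: t) h
    intro x hx
    rcases List.mem_cons.mp hx with rfl | hx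
    · exact c6
    · exact lt_of_lt_of_le c6 (hs.1 x hx)

/-- The conjecture: every real-valued instance of density at most `5/6` is schedulable. -/
theorem main (k : ℕ) (hk : 0 < k) (a : Fin k → ℝ) (ha : ∀ i, 1 ≤ a i)
    (hD : (∑ i, 1 / a i) ≤ (5 / 6 : ℝ)) :
    ∃ S : ℤ → Fin k, ∀ i : Fin k, ∀ l : ℕ, 1 ≤ l → ∀ m : ℤ,
      l ≤ ((Finset.Ico m (m + ⌈(l : ℝ) * a i⌉)).filter (fun t => S t = i)).card := by
  by_cases h : ∃ j, a j ≤ 5 / 3
  · obtain ⟨j, hj⟩ := h
    obtain ⟨S, hS⟩ := Pool.Agent.H210R2.Pin.five_thirds_all hk a ha j hj hD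
    exact ⟨S, fun i l _ m => hS i l m⟩
  push Not at h
  apply sched_of_sch hk a
  obtain ⟨A, hA1, hA2⟩ := exists_sorted (List.ofFn a)
  apply sch_perm hA1
  apply sch_sorted A
  · refine ⟨hA2, ?_, ?_⟩
    · intro x hx
      obtain ⟨i, rfl⟩ := (List.mem_ofFn' a x).mp (hA1.mem_iff.mp hx)
      linarith [ha i]
    · rw [dens_perm hA1]
      unfold dens
      rw [List.map_ofFn, List.sum_ofFn]
      simpa [one_div] using hD
  · intro x hx
    obtain ⟨i, rfl⟩ := (List.mem_ofFn' a x).mp (hA1.mem_iff.mp hx)
    exact h i

end Pool.Agent.Y573.Pin
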