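import Mathlib

/-! # Real-valued pinwheel scheduling: day sets, splitting and folding -/

set_option autoImplicit false

namespace Pool.Agent.Y573.Pin

open Finset

/-- The set of days `T` serves a task of period `a`: every window of `d ≥ l * a` consecutive days
contains at least `l` days of `T`. -/
def Good (a : ℝ) (T : Set ℤ) : Prop :=
  ∀ (x y : ℤ) (l : ℕ), (l : ℝ) * a ≤ ((y - x : ℤ) : ℝ) →
    ∃ s : Finset ℤ, (∀ t ∈ s, x ≤ t ∧ t < y ∧ t ∈ T) ∧ l ≤ s.card

/-- A list of periods is schedulable: there are pairwise disjoint day sets serving them. -/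
def Sch (A : List ℝ) : Prop :=
  ∃ L : List (ℝ × Set ℤ), L.map Prod.fst = A ∧ (∀ x ∈ L, Good x.1 x.2) ∧
    L.Pairwise (fun x y => Disjoint x.2 y.2)

/-- the density -/
noncomputable def dens (A : List ℝ) : ℝ := (A.map (fun x => x⁻¹)).sum

lemma dens_cons (x : ℝ) (A : List ℝ) : dens (x :: A) = x⁻¹ + dens A := by
  simp [dens]

lemma dens_nil : dens [] = 0 := by simp [dens]

lemma dens_append (A B : List ℝ) : dens (A ++ B) = dens A + dens B := by
  simp [dens]

lemma dens_perm {A B : List ℝ} (h : A.Perm B) : dens A = dens B := by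
  unfold dens
  exact (h.map _).sum_eq

lemma dens_nonneg {A : List ℝ} (h : ∀ x ∈ A, 0 < x) : 0 ≤ dens A := by
  unfold dens
  apply List.sum_nonneg
  intro y hy
  obtain ⟨x, hx, rfl⟩ := List.mem_map.mp hy
  exact (inv_pos.mpr (h x hx)).le

lemma good_mono {a b : ℝ} {T : Set ℤ} (h : Good a T) (hab : a ≤ b) : Good b T := by
  intro x y l hl
  apply h x y l
  refine le_trans ?_ hl
  exact mul_le_mul_of_nonneg_left hab (Nat.cast_nonneg l)

lemma exists_perm_of_map {α β : Type*} (f : α → β) {A B : List β} (h : A.Perm B) :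
    ∀ L : List α, L.map f = A → ∃ L' : List α, L'.Perm L ∧ L'.map f = B := by
  induction h with
  | nil =>
    intro L hL
    exact ⟨L, List.Perm.refl _, hL⟩
  | cons x _ ih =>
    intro L hL
    cases L with
    | nil => simp at hL
    | cons y L =>
      simp only [List.map_cons, List.cons.injEq] at hL
      obtain ⟨L', h1, h2⟩ := ih L hL.2
      exact ⟨y :: L', h1.cons y, by simp [h2, hL.1]⟩
  | swap x y l =>
    intro L hL
    match L, hL with
    | a :: b :: L, hL =>
      simp only [List.map_cons, List.cons.injEq] at hL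
      refine ⟨b :: a :: L, List.Perm.swap _ _ _, ?_⟩
      simp [hL.1, hL.2.1, hL.2.2]
  | trans _ _ ih1 ih2 =>
    intro L hL
    obtain ⟨L1, h1, h2⟩ := ih1 L hL
    obtain ⟨L2, h3, h4⟩ := ih2 L1 h2
    exact ⟨L2, h3.trans h1, h4⟩

lemma sch_perm {A B : List ℝ} (h : A.Perm B) (hA : Sch A) : Sch B := by
  obtain ⟨L, h1, h2, h3⟩ := hA
  obtain ⟨L', h4, h5⟩ := exists_perm_of_map Prod.fst h L h1
  refine ⟨L', h5, fun x hx => h2 x (h4.mem_iff.mp hx), ?_⟩
  exact (h4.pairwise_iff (fun hab => hab.symm)).mpr h3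

lemma sch_mono {A B : List ℝ} (h : List.Forall₂ (· ≤ ·) A B) (hA : Sch A) : Sch B := by
  obtain ⟨L, h1, h2, h3⟩ := hA
  subst h1
  have key : ∀ (L : List (ℝ × Set ℤ)) (B : List ℝ), List.Forall₂ (· ≤ ·) (L.map Prod.fst) B →
      ∃ L' : List (ℝ × Set ℤ), L'.map Prod.fst = B ∧ L'.map Prod.snd = L.map Prod.snd ∧
        ((∀ x ∈ L, Good x.1 x.2) → ∀ x ∈ L', Good x.1 x.2) := by
    intro L
    induction L with
    | nil =>
      intro B hB
      simp only [List.map_nil, List.forall₂_nil_left_iff] at hB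
      subst hB
      exact ⟨[], rfl, rfl, fun h => h⟩
    | cons p L ih =>
      intro B hB
      cases B with
      | nil => simp at hB
      | cons b B =>
        simp only [List.map_cons, List.forall₂_cons] at hB
        obtain ⟨L', e1, e2, e3⟩ := ih B hB.2
        refine ⟨(b, p.2) :: L', by simp [e1], by simp [e2], ?_⟩
        intro hg x hx
        rcases List.mem_cons.mp hx with rfl | hx
        · exact good_mono (hg p (List.mem_cons_self)) hB.1
        · exact e3 (fun x hx => hg x (List.mem_cons_of_mem _ hx)) x hx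
  obtain ⟨L', e1, e2, e3⟩ := key L B h
  refine ⟨L', e1, e3 h2, ?_⟩
  have h4 : (L.map Prod.snd).Pairwise (fun x y : Set ℤ => Disjoint x y) :=
    List.pairwise_map.mpr h3
  rw [← e2] at h4
  exact List.pairwise_map.mp h4

/-! ### splitting a task -/

open Classical in
/-- counting function of a set of days -/
noncomputable def cnt (T : Set ℤ) (t : ℤ) : ℤ :=
  if 0 ≤ t then (((Finset.Ico 0 t).filter (fun z => z ∈ T)).card : ℤ)
  else -(((Finset.Ico t 0).filter (fun z => z ∈ T)).card : ℤ)

open Classical in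
lemma cnt_succ (T : Set ℤ) (t : ℤ) : cnt T (t + 1) = cnt T t + (if t ∈ T then 1 else 0) := by
  unfold cnt
  by_cases h : 0 ≤ t
  · rw [if_pos (by omega), if_pos h]
    have e : Finset.Ico 0 (t + 1) = insert t (Finset.Ico 0 t) := by
      ext z; simp only [Finset.mem_Ico, Finset.mem_insert]; omega
    rw [e, Finset.filter_insert]
    split_ifs with ht
    · rw [Finset.card_insert_of_notMem (by simp)]
      push_cast; ring
    · ring
  · by_cases h1 : t = -1
    · subst h1
      have e : Finset.Ico (-1 : ℤ) 0 = {-1} := by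
        ext z; simp only [Finset.mem_Ico, Finset.mem_singleton]; omega
      norm_num
      rw [e, Finset.filter_singleton]
      split_ifs <;> simp
    · rw [if_neg (by omega), if_neg h]
      have e : Finset.Ico t 0 = insert t (Finset.Ico (t + 1) 0) := by
        ext z; simp only [Finset.mem_Ico, Finset.mem_insert]; omega
      rw [e, Finset.filter_insert]
      split_ifs with ht
      · rw [Finset.card_insert_of_notMem (by simp)]
        push_cast; ring
      · ring

open Classical in
lemma cnt_window (T : Set ℤ) (x : ℤ) (n : ℕ) :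
    cnt T (x + n) = cnt T x + (((Finset.Ico x (x + n)).filter (fun z => z ∈ T)).card : ℤ) := by
  induction n with
  | zero => simp
  | succ n ih =>
    have e1 : x + ((n + 1 : ℕ) : ℤ) = (x + n) + 1 := by push_cast; ring
    have e : Finset.Ico x (x + n + 1) = insert (x + n) (Finset.Ico x (x + n)) := by
      ext z; simp only [Finset.mem_Ico, Finset.mem_insert]; omega
    rw [e1, cnt_succ, ih, e, Finset.filter_insert]
    split_ifs with ht
    · rw [Finset.card_insert_of_notMem (by simp)]
      push_cast; ring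
    · ring

open Classical in
lemma half_window (T : Set ℤ) (r : ℤ) (x : ℤ) (n : ℕ) :
    (((Finset.Ico x (x + n)).filter (fun z => z ∈ T ∧ (cnt T z + r) % 2 = 0)).card : ℤ) =
      (cnt T (x + n) + r + 1) / 2 - (cnt T x + r + 1) / 2 := by
  induction n with
  | zero => simp
  | succ n ih =>
    have e1 : x + ((n + 1 : ℕ) : ℤ) = (x + n) + 1 := by push_cast; ring
    have e : Finset.Ico x (x + n + 1) = insert (x + n) (Finset.Ico x (x + n)) := by
      ext z; simp only [Finset.mem_Ico, Finset.mem_insert]; omega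
    rw [e1, cnt_succ, e, Finset.filter_insert]
    by_cases ht : x + n ∈ T
    · by_cases hr : (cnt T (x + n) + r) % 2 = 0
      · rw [if_pos ⟨ht, hr⟩, if_pos ht, Finset.card_insert_of_notMem (by simp)]
        push_cast
        rw [ih]
        omega
      · rw [if_neg (fun h => hr h.2), if_pos ht, ih]
        omega
    · rw [if_neg (fun h => ht h.1), if_neg ht, ih]
      simp

open Classical in
lemma half_good {a : ℝ} (ha : 0 < a) {T : Set ℤ} (h : Good a T) (r : ℤ) :
    Good (2 * a) {z | z ∈ T ∧ (cnt T z + r) % 2 = 0} := by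
  intro x y l hl
  by_cases hl0 : l = 0
  · subst hl0
    exact ⟨∅, by simp, by simp⟩
  have hl1 : (1 : ℝ) ≤ l := by exact_mod_cast Nat.one_le_iff_ne_zero.mpr hl0
  have hxy : x ≤ y := by
    have : (0 : ℝ) ≤ ((y - x : ℤ) : ℝ) := le_trans (by positivity) hl
    have h2 : (0 : ℤ) ≤ y - x := by exact_mod_cast this
    omega
  obtain ⟨n, hn⟩ := Int.eq_ofNat_of_zero_le (show 0 ≤ y - x by omega)
  have hy : y = x + n := by omega
  subst hy
  obtain ⟨s, hs1, hs2⟩ := h x (x + n) (2 * l) (by push_cast at hl ⊢; nlinarith)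
  have hsub : s ⊆ (Finset.Ico x (x + n)).filter (fun z => z ∈ T) := by
    intro t ht
    obtain ⟨h1, h2, h3⟩ := hs1 t ht
    simp only [Finset.mem_filter, Finset.mem_Ico]
    exact ⟨⟨h1, h2⟩, h3⟩
  have hc := Finset.card_le_card hsub
  have hw := cnt_window T x n
  have hh := half_window T r x n
  refine ⟨(Finset.Ico x (x + n)).filter (fun z => z ∈ T ∧ (cnt T z + r) % 2 = 0), ?_, ?_⟩
  · intro t ht
    simp only [Finset.mem_filter, Finset.mem_Ico] at ht
    exact ⟨ht.1.1, ht.1.2, ht.2⟩
  · omega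

lemma sch_halve {x : ℝ} (hx : 0 < x) {A : List ℝ} (h : Sch (x :: A)) :
    Sch (2 * x :: 2 * x :: A) := by
  obtain ⟨L, h1, h2, h3⟩ := h
  cases L with
  | nil => simp at h1
  | cons p L =>
    simp only [List.map_cons, List.cons.injEq] at h1
    obtain ⟨h1a, h1b⟩ := h1
    have hp := h2 p List.mem_cons_self
    rw [h1a] at hp
    rw [List.pairwise_cons] at h3
    refine ⟨(2 * x, {z | z ∈ p.2 ∧ (cnt p.2 z + 0) % 2 = 0}) ::
      (2 * x, {z | z ∈ p.2 ∧ (cnt p.2 z + 1) % 2 = 0}) :: L, by simp [h1b], ?_, ?_⟩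
    · intro y hy
      rcases List.mem_cons.mp hy with rfl | hy
      · exact half_good hx hp 0
      rcases List.mem_cons.mp hy with rfl | hy
      · exact half_good hx hp 1
      · exact h2 y (List.mem_cons_of_mem _ hy)
    · rw [List.pairwise_cons, List.pairwise_cons]
      refine ⟨?_, ?_, h3.2⟩
      · intro y hy
        rcases List.mem_cons.mp hy with rfl | hy
        · rw [Set.disjoint_left]
          rintro z ⟨_, hz1⟩ ⟨_, hz2⟩
          omega
        · exact Set.disjoint_of_subset_left (fun z hz => hz.1) (h3.1 y hy)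
      · intro y hy
        exact Set.disjoint_of_subset_left (fun z hz => hz.1) (h3.1 y hy)

/-! ### folding -/

lemma exists_max (t : List ℝ) (ht : t ≠ []) : ∃ m ∈ t, ∀ x ∈ t, x ≤ m := by
  induction t with
  | nil => exact absurd rfl ht
  | cons a t ih =>
    by_cases h : t = []
    · subst h
      exact ⟨a, by simp, by simp⟩
    · obtain ⟨m, hm, hm2⟩ := ih h
      by_cases ham : a ≤ m
      · exact ⟨m, List.mem_cons_of_mem _ hm, by
          intro x hx
          rcases List.mem_cons.mp hx with rfl | hx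
          · exact ham
          · exact hm2 x hx⟩
      · exact ⟨a, List.mem_cons_self, by
          intro x hx
          rcases List.mem_cons.mp hx with rfl | hx
          · exact le_rfl
          · exact le_trans (hm2 x hx) (not_le.mp ham).le⟩

lemma sch_append_perm {P A B : List ℝ} (h : A.Perm B) (hA : Sch (P ++ A)) : Sch (P ++ B) :=
  sch_perm (h.append_left P) hA

lemma fold_aux (θ : ℝ) (hθ : 0 < θ) : ∀ (n : ℕ) (t : List ℝ) (b : ℝ), t.length ≤ n →
    (∀ x ∈ t, 0 < x) → (∀ x ∈ t, x ≤ b) → θ ≤ b →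
    ∃ t' : List ℝ, (∀ x ∈ t', 0 < x ∧ x ≤ θ ∧ (x ∈ t ∨ θ / 2 < x)) ∧
      dens t' ≤ dens t + θ⁻¹ - b⁻¹ ∧ (∀ P, Sch (P ++ t') → Sch (P ++ t)) := by
  intro n
  induction n with
  | zero =>
    intro t b hlen _ _ hb
    have : t = [] := List.length_eq_zero_iff.mp (by omega)
    subst this
    refine ⟨[], by simp, ?_, fun P h => h⟩
    have : b⁻¹ ≤ θ⁻¹ := inv_anti₀ hθ hb
    linarith
  | succ n ih =>
    intro t b hlen hpos hle hb
    have hbθ : b⁻¹ ≤ θ⁻¹ := inv_anti₀ hθ hb
    by_cases hall : ∀ x ∈ t, x ≤ θ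
    · exact ⟨t, fun x hx => ⟨hpos x hx, hall x hx, Or.inl hx⟩, by linarith, fun P h => h⟩
    push Not at hall
    obtain ⟨x0, hx0, hx0θ⟩ := hall
    obtain ⟨m, hm, hmax⟩ := exists_max t (List.ne_nil_of_mem hx0)
    have hmθ : θ < m := lt_of_lt_of_le hx0θ (hmax x0 hx0)
    have hmpos : 0 < m := hθ.trans hmθ
    obtain ⟨l1, l2, rfl⟩ := List.append_of_mem hm
    have hperm : (l1 ++ m :: l2).Perm (m :: (l1 ++ l2)) := List.perm_middle
    set t1 := l1 ++ l2 with ht1
    have hmem1 : ∀ x ∈ t1, x ∈ l1 ++ m :: l2 := by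
      intro x hx
      exact hperm.mem_iff.mpr (List.mem_cons_of_mem _ hx)
    have hdens : dens (l1 ++ m :: l2) = m⁻¹ + dens t1 := by
      rw [dens_perm hperm, dens_cons]
    have hlen1 : t1.length ≤ n := by
      have := hperm.length_eq
      simp only [List.length_cons] at this
      omega
    have hbm : b⁻¹ ≤ m⁻¹ := inv_anti₀ hmpos (hle m hm)
    by_cases hall1 : ∀ x ∈ t1, x ≤ θ
    · refine ⟨θ :: t1, ?_, ?_, ?_⟩
      · intro x hx
        rcases List.mem_cons.mp hx with rfl | hx
        · exact ⟨hθ, le_rfl, Or.inr (by linarith)⟩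
        · exact ⟨hpos x (hmem1 x hx), hall1 x hx, Or.inl (hmem1 x hx)⟩
      · rw [dens_cons, hdens]
        linarith
      · intro P hP
        have h1 : Sch (P ++ m :: t1) := by
          refine sch_mono ?_ hP
          apply List.rel_append (List.forall₂_same.mpr fun x _ => le_rfl)
          exact List.Forall₂.cons hmθ.le (List.forall₂_same.mpr fun x _ => le_rfl)
        exact sch_append_perm hperm.symm h1
    push Not at hall1
    obtain ⟨x1, hx1, hx1θ⟩ := hall1
    obtain ⟨m2, hm2, hmax2⟩ := exists_max t1 (List.ne_nil_of_mem hx1)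
    have hm2θ : θ < m2 := lt_of_lt_of_le hx1θ (hmax2 x1 hx1)
    have hm2pos : 0 < m2 := hθ.trans hm2θ
    have hm2m : m2 ≤ m := hmax m2 (hmem1 m2 hm2)
    obtain ⟨k1, k2, hk⟩ := List.append_of_mem hm2
    have hperm2 : t1.Perm (m2 :: (k1 ++ k2)) := by
      rw [hk]; exact List.perm_middle
    set t2 := k1 ++ k2 with ht2
    have hmem2 : ∀ x ∈ t2, x ∈ t1 := by
      intro x hx
      exact hperm2.mem_iff.mpr (List.mem_cons_of_mem _ hx)
    have hdens2 : dens t1 = m2⁻¹ + dens t2 := by
      rw [dens_perm hperm2, dens_cons]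
    have hlen2 : (m2 / 2 :: t2).length ≤ n := by
      have := hperm2.length_eq
      simp only [List.length_cons] at this ⊢
      omega
    obtain ⟨t', e1, e2, e3⟩ := ih (m2 / 2 :: t2) m2 hlen2 (by
      intro x hx
      rcases List.mem_cons.mp hx with rfl | hx
      · positivity
      · exact hpos x (hmem1 x (hmem2 x hx))) (by
      intro x hx
      rcases List.mem_cons.mp hx with rfl | hx
      · linarith
      · exact hmax2 x (hmem2 x hx)) hm2θ.le
    refine ⟨t', ?_, ?_, ?_⟩
    · intro x hx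
      obtain ⟨f1, f2, f3⟩ := e1 x hx
      refine ⟨f1, f2, ?_⟩
      rcases f3 with f3 | f3
      · rcases List.mem_cons.mp f3 with rfl | f3
        · right; linarith
        · left; exact hmem1 x (hmem2 x f3)
      · right; exact f3
    · rw [dens_cons] at e2
      rw [hdens, hdens2]
      have : (m2 / 2)⁻¹ = 2 * m2⁻¹ := by rw [inv_div]; ring
      rw [this] at e2
      linarith
    · intro P hP
      have h1 := e3 P hP
      have h2 : Sch (m2 / 2 :: (P ++ t2)) := sch_perm List.perm_middle h1
      have h3 := sch_halve (by positivity) h2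
      have e : 2 * (m2 / 2) = m2 := by ring
      rw [e] at h3
      have h4 : Sch (m :: m2 :: (P ++ t2)) := by
        refine sch_mono ?_ h3
        exact List.Forall₂.cons hm2m (List.forall₂_same.mpr fun x _ => le_rfl)
      refine sch_perm ?_ h4
      have p1 : (m :: m2 :: (P ++ t2)).Perm (m :: (P ++ m2 :: t2)) :=
        (List.perm_middle.symm).cons m
      have p2 : (m :: (P ++ m2 :: t2)).Perm (P ++ m :: (m2 :: t2)) := List.perm_middle.symm
      have p3 : (P ++ m :: (m2 :: t2)).Perm (P ++ m :: t1) :=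
        (hperm2.symm.cons m).append_left P
      exact p1.trans (p2.trans (p3.trans (hperm.symm.append_left P)))

/-- Folding: the tasks of period larger than `θ` can be merged, at the price of less than `1/θ` in
the density. -/
theorem fold_le (θ : ℝ) (hθ : 0 < θ) (t : List ℝ) (hpos : ∀ x ∈ t, 0 < x) :
    ∃ t' : List ℝ, (∀ x ∈ t', 0 < x ∧ x ≤ θ ∧ (x ∈ t ∨ θ / 2 < x)) ∧
      dens t' < dens t + θ⁻¹ ∧ (∀ P, Sch (P ++ t') → Sch (P ++ t)) := by
  obtain ⟨b, hb1, hb2⟩ : ∃ b : ℝ, θ ≤ b ∧ ∀ x ∈ t, x ≤ b := by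
    by_cases h : t = []
    · subst h
      exact ⟨θ, le_rfl, by simp⟩
    · obtain ⟨m, _, hm2⟩ := exists_max t h
      exact ⟨max m θ, le_max_right _ _, fun x hx => (hm2 x hx).trans (le_max_left _ _)⟩
  obtain ⟨t', h1, h2, h3⟩ := fold_aux θ hθ t.length t b le_rfl hpos hb2 hb1
  refine ⟨t', h1, ?_, h3⟩
  have : 0 < b⁻¹ := inv_pos.mpr (lt_of_lt_of_le hθ hb1)
  linarith

end Pool.Agent.Y573.Pin
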