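import Pool.Agent.Y573.Pin.Basic

/-! # Real-valued pinwheel scheduling: the checker for coverings -/

set_option autoImplicit false

namespace Pool.Agent.Y573.Pin

/-! ### one task of a periodic schedule, given by the gaps between its days -/

/-- Go through `n` gaps (digits to the base 32 of `w`, diminished by one); `e` is the level and
`mask` collects the days. The result is `0` if the level gets too large. -/
def occ (p q e0 : ℕ) (n : ℕ) : ℕ → ℕ → ℕ → ℕ :=
  Nat.rec (fun _ e mask => Bool.rec (motive := fun _ => ℕ) 0 mask (Nat.ble e e0))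
    (fun _ ih w e mask =>
      Bool.rec (motive := fun _ => ℕ) 0
        (ih (Nat.div w 32) (Nat.sub (Nat.add (Nat.add e (Nat.mul (Nat.mod w 32) q)) q) p)
          (Nat.succ (Nat.mul mask (Nat.pow 2 (Nat.succ (Nat.mod w 32))))))
        (Nat.ble (Nat.add e (Nat.mul (Nat.mod w 32) q)) p)) n

lemma occ_zero (p q e0 w e mask : ℕ) : occ p q e0 0 w e mask =
    Bool.rec (motive := fun _ => ℕ) 0 mask (Nat.ble e e0) := rfl

lemma occ_succ (p q e0 n w e mask : ℕ) : occ p q e0 (n + 1) w e mask =
    Bool.rec (motive := fun _ => ℕ) 0 (occ p q e0 n (w / 32) (e + (w % 32) * q + q - p)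
      (mask * 2 ^ (w % 32 + 1) + 1)) (Nat.ble (e + (w % 32) * q) p) := rfl

lemma occ_spec (p q e0 : ℕ) (hqp : q ≤ p) : ∀ (n w e mask R : ℕ),
    occ p q e0 n w e mask = R → R ≠ 0 → e ≤ p →
    ∃ (G : ℕ) (r : ℕ) (D : ℕ → ℕ), R = mask * 2 ^ G + r ∧ r < 2 ^ G ∧ D G = e ∧
      (∀ t, t < G → D (t + 1) + q ≤ D t + (if r.testBit t then p else 0)) ∧
      (∀ t, t ≤ G → D t ≤ p) ∧ D 0 ≤ e0 := by
  intro n
  induction n with
  | zero =>
    intro w e mask R h hR he
    rw [occ_zero] at h
    by_cases hc : e ≤ e0
    · rw [Nat.ble_eq_true_of_le hc] at h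
      refine ⟨0, 0, fun _ => e, ?_, by simp, rfl, ?_, fun t _ => he, hc⟩
      · simpa using h.symm
      · intro t ht
        omega
    · have : Nat.ble e e0 = false := by
        rw [Bool.eq_false_iff]
        intro hb
        exact hc (Nat.le_of_ble_eq_true hb)
      rw [this] at h
      exact absurd h.symm hR
  | succ n ih =>
    intro w e mask R h hR he
    rw [occ_succ] at h
    set δ := w % 32 with hδ
    by_cases hc : e + δ * q ≤ p
    · rw [Nat.ble_eq_true_of_le hc] at h
      obtain ⟨G, r, D, h1, h2, h3, h4, h5, h6⟩ := ih (w / 32) (e + δ * q + q - p)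
        (mask * 2 ^ (δ + 1) + 1) R h hR (by omega)
      refine ⟨G + (δ + 1), 2 ^ G + r, fun t => if t ≤ G then D t else e + (G + (δ + 1) - t) * q,
        ?_, ?_, ?_, ?_, ?_, ?_⟩
      · rw [h1, pow_add 2 G (δ + 1)]
        ring
      · have : 2 ^ G + 2 ^ G ≤ 2 ^ (G + (δ + 1)) := by
          have : 2 ^ G + 2 ^ G = 2 ^ (G + 1) := by rw [pow_succ]; ring
          rw [this]
          exact Nat.pow_le_pow_right (by norm_num) (by omega)
        omega
      · simp only
        rw [if_neg (by omega)]
        simp
      · intro t ht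
        simp only
        rcases lt_trichotomy t G with htp | htp | htp
        · rw [if_pos (by omega), if_pos (by omega), Nat.testBit_two_pow_add_gt htp]
          exact h4 t htp
        · subst htp
          rw [if_neg (by omega), if_pos le_rfl, h3]
          have hb1 : (2 ^ t + r).testBit t = true := by
            rw [Nat.testBit_two_pow_add_eq, Nat.testBit_lt_two_pow h2]
            rfl
          rw [hb1]
          simp only [if_true]
          have e1 : (t + (δ + 1) - (t + 1)) = δ := by omega
          rw [e1]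
          omega
        · rw [if_neg (by omega), if_neg (by omega)]
          have e1 : (G + (δ + 1) - (t + 1)) * q + q = (G + (δ + 1) - t) * q := by
            have : G + (δ + 1) - t = (G + (δ + 1) - (t + 1)) + 1 := by omega
            rw [this]; ring
          omega
      · intro t ht
        simp only
        split_ifs with htp
        · exact h5 t htp
        · have e1 : (G + (δ + 1) - t) * q ≤ δ * q := by
            apply Nat.mul_le_mul_right
            omega
          omega
      · simp only
        rw [if_pos (Nat.zero_le _)]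
        exact h6
    · have : Nat.ble (e + δ * q) p = false := by
        rw [Bool.eq_false_iff]
        intro hb
        exact hc (Nat.le_of_ble_eq_true hb)
      rw [this] at h
      exact absurd h.symm hR

/-- the days of a task -/
def days (L m : ℕ) : Set ℤ := {t | m.testBit (t % (L : ℤ)).toNat = true}

lemma good_of_levels (a : ℝ) (p q : ℕ) (hp : 0 < p) (ha : (p : ℝ) < a * q) (T : Set ℤ)
    (E : ℤ → ℕ) (hE : ∀ t, E t ≤ p)
    (hstep : ∀ t, ∃ c : ℕ, E (t + 1) + q ≤ E t + p * c ∧ (c = 0 ∨ (c = 1 ∧ t ∈ T))) :
    Good a T := by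
  classical
  intro x y l hl
  by_cases hl0 : l = 0
  · subst hl0
    exact ⟨∅, by simp, by simp⟩
  have hq : 0 < q := by
    rcases Nat.eq_zero_or_pos q with h | h
    · subst h
      simp only [Nat.cast_zero, mul_zero] at ha
      have : (0 : ℝ) < p := by exact_mod_cast hp
      linarith
    · exact h
  have ha0 : 0 < a := by
    by_contra hn
    have h1 : a * q ≤ 0 := mul_nonpos_of_nonpos_of_nonneg (not_lt.mp hn) (Nat.cast_nonneg q)
    have : (0 : ℝ) < p := by exact_mod_cast hp
    linarith
  have hl1 : (1 : ℝ) ≤ l := by exact_mod_cast Nat.one_le_iff_ne_zero.mpr hl0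
  have hxy : x ≤ y := by
    have : (0 : ℝ) ≤ ((y - x : ℤ) : ℝ) := le_trans (by positivity) hl
    have h2 : (0 : ℤ) ≤ y - x := by exact_mod_cast this
    omega
  obtain ⟨n, hn⟩ := Int.eq_ofNat_of_zero_le (show 0 ≤ y - x by omega)
  have hy : y = x + n := by omega
  subst hy
  refine ⟨(Finset.Ico x (x + n)).filter (fun z => z ∈ T), ?_, ?_⟩
  · intro t ht
    simp only [Finset.mem_filter, Finset.mem_Ico] at ht
    exact ⟨ht.1.1, ht.1.2, ht.2⟩
  have key : ∀ n : ℕ, E (x + n) + q * n ≤ E x +
      p * ((Finset.Ico x (x + n)).filter (fun z => z ∈ T)).card := by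
    intro n
    induction n with
    | zero => simp
    | succ n ih =>
      have e1 : x + ((n + 1 : ℕ) : ℤ) = (x + n) + 1 := by push_cast; ring
      have e : Finset.Ico x (x + n + 1) = insert (x + n) (Finset.Ico x (x + n)) := by
        ext z; simp only [Finset.mem_Ico, Finset.mem_insert]; omega
      rw [e1, e, Finset.filter_insert]
      obtain ⟨c, hc1, hc2⟩ := hstep (x + n)
      rcases hc2 with hc2 | ⟨hc2, hT⟩
      · subst hc2
        split_ifs with ht
        · rw [Finset.card_insert_of_notMem (by simp)]
          rw [mul_add, mul_add]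
          omega
        · rw [mul_add]
          omega
      · subst hc2
        rw [if_pos hT, Finset.card_insert_of_notMem (by simp)]
        rw [mul_add, mul_add]
        omega
  have hk := key n
  have hEx := hE x
  set N := ((Finset.Ico x (x + (n : ℤ))).filter (fun z => z ∈ T)).card with hN
  have h1 : q * n ≤ p * (N + 1) := by
    rw [mul_add]; omega
  have h2 : (l : ℝ) * a ≤ n := by
    have : ((x + (n : ℤ) - x : ℤ) : ℝ) = n := by push_cast; ring
    rwa [this] at hl
  by_contra hcon
  push Not at hcon
  have h3 : (q : ℝ) * n ≤ p * (N + 1) := by exact_mod_cast h1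
  have h4 : ((N : ℝ) + 1) ≤ l := by exact_mod_cast hcon
  have hp' : (0 : ℝ) < p := by exact_mod_cast hp
  have hq' : (0 : ℝ) < q := by exact_mod_cast hq
  have h5 : (p : ℝ) * (N + 1) ≤ p * l := mul_le_mul_of_nonneg_left h4 hp'.le
  have h6 : (q : ℝ) * (l * a) ≤ q * n := mul_le_mul_of_nonneg_left h2 hq'.le
  have h7 : (l : ℝ) * p < l * (a * q) := mul_lt_mul_of_pos_left ha (by linarith)
  nlinarith

/-- rotation of a bit mask -/
def rot (L s r : ℕ) : ℕ :=
  Nat.lor (Nat.mod (Nat.mul r (Nat.pow 2 s)) (Nat.pow 2 L))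
    (Nat.div (Nat.mul r (Nat.pow 2 s)) (Nat.pow 2 L))

lemma rot_eq (L s r : ℕ) : rot L s r = (r * 2 ^ s % 2 ^ L) ||| (r * 2 ^ s / 2 ^ L) := rfl

lemma rot_bit (L s r b : ℕ) (h : r.testBit b = true) :
    (b + s < L → (rot L s r).testBit (b + s) = true) ∧
      (L ≤ b + s → b + s < 2 * L → (rot L s r).testBit (b + s - L) = true) := by
  constructor
  · intro h1
    rw [rot_eq, Nat.testBit_lor, Nat.testBit_mod_two_pow, Nat.testBit_mul_two_pow]
    simp [h1, h]
  · intro h1 _
    rw [rot_eq, Nat.testBit_lor, Nat.testBit_div_two_pow, Nat.testBit_mul_two_pow]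
    have : b + s - L + L - s = b := by omega
    rw [this, h]
    have h3 : s ≤ b + s - L + L := by omega
    simp [h3]

lemma good_of_occ (a : ℝ) (p q e0 n w L s : ℕ) (hp : 0 < p) (hqp : q ≤ p)
    (ha : (p : ℝ) < a * q) (he0 : e0 ≤ p) (hL : 0 < L) (hs : s < L)
    (h : occ p q e0 n w e0 1 / 2 ^ L = 1) :
    Good a (days L (rot L s (occ p q e0 n w e0 1 % 2 ^ L))) := by
  set R := occ p q e0 n w e0 1 with hRdef
  have hR0 : R ≠ 0 := by
    intro h0
    rw [h0] at h
    simp at h
  obtain ⟨G, r, D, d1, d2, d3, d4, d5, d6⟩ := occ_spec p q e0 hqp n w e0 1 R hRdef.symm hR0 he0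
  rw [one_mul] at d1
  have hGL : G = L := by
    have h1 : 2 ^ L ≤ R := by
      by_contra hc
      rw [Nat.div_eq_of_lt (not_le.mp hc)] at h
      exact absurd h (by norm_num)
    have h2 : R < 2 * 2 ^ L := by
      by_contra hc
      have : 2 ≤ R / 2 ^ L := (Nat.le_div_iff_mul_le (by positivity)).mpr (not_lt.mp hc)
      omega
    have h3 : R < 2 ^ (G + 1) := by rw [pow_succ]; omega
    have h4 : 2 ^ G ≤ R := by omega
    have h5 : L < G + 1 := by
      exact (Nat.pow_lt_pow_iff_right (a := 2) (by norm_num)).mp (lt_of_le_of_lt h1 h3)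
    have h6 : G < L + 1 := by
      apply (Nat.pow_lt_pow_iff_right (a := 2) (by norm_num)).mp
      rw [pow_succ]
      omega
    omega
  subst hGL
  have hr : R % 2 ^ G = r := by
    rw [d1, Nat.add_mod_left, Nat.mod_eq_of_lt d2]
  rw [hr]
  have hL' : (0 : ℤ) < G := by exact_mod_cast hL
  set τ : ℤ → ℕ := fun t => ((t - s) % (G : ℤ)).toNat with hτ
  have hτc : ∀ t, ((τ t : ℕ) : ℤ) = (t - s) % (G : ℤ) := by
    intro t
    exact Int.toNat_of_nonneg (Int.emod_nonneg (t - s) hL'.ne')
  have hτlt : ∀ t, τ t < G := by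
    intro t
    have h1 := Int.emod_lt_of_pos (t - s) hL'
    have h2 := hτc t
    omega
  have hbit : ∀ t : ℤ, r.testBit (τ t) = true → t ∈ days G (rot G s r) := by
    intro t ht
    obtain ⟨r1, r2⟩ := rot_bit G s r (τ t) ht
    have hmod : t % (G : ℤ) = (((τ t + s : ℕ)) : ℤ) % (G : ℤ) := by
      push_cast
      rw [hτc, Int.emod_add_emod]
      congr 1
      ring
    show (rot G s r).testBit (t % (G : ℤ)).toNat = true
    by_cases hc : τ t + s < G
    · have : t % (G : ℤ) = ((τ t + s : ℕ) : ℤ) := by
        rw [hmod]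
        exact Int.emod_eq_of_lt (by positivity) (by exact_mod_cast hc)
      rw [this, Int.toNat_natCast]
      exact r1 hc
    · have h3 := hτlt t
      have : t % (G : ℤ) = ((τ t + s - G : ℕ) : ℤ) := by
        rw [hmod]
        have e : ((τ t + s : ℕ) : ℤ) = ((τ t + s - G : ℕ) : ℤ) + G := by
          push_cast [Nat.cast_sub (not_lt.mp hc)]
          ring
        rw [e, Int.add_emod_right]
        exact Int.emod_eq_of_lt (by positivity) (by
          have : τ t + s - G < G := by omega
          exact_mod_cast this)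
      rw [this]
      simpa using r2 (not_lt.mp hc) (by omega)
  apply good_of_levels a p q hp ha _ (fun t => D (τ t))
  · intro t
    exact d5 _ (hτlt t).le
  · intro t
    have hd := d4 (τ t) (hτlt t)
    have hnext : D (τ (t + 1)) ≤ D (τ t + 1) := by
      have h1 := hτc t
      have h2 := hτc (t + 1)
      have h3 := hτlt t
      by_cases hc : τ t + 1 < G
      · have : τ (t + 1) = τ t + 1 := by
          have e : (t + 1 - s) % (G : ℤ) = (t - s) % (G : ℤ) + 1 := by
            have e3 : t + 1 - s = (t - s) + 1 := by ring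
            rw [e3, ← Int.emod_add_emod]
            apply Int.emod_eq_of_lt
            · rw [← h1]; positivity
            · rw [← h1]; exact_mod_cast hc
          rw [e] at h2
          omega
        rw [this]
      · have e5 : τ t + 1 = G := by omega
        have e6 : τ (t + 1) = 0 := by
          have e : (t + 1 - s) % (G : ℤ) = 0 := by
            have e3 : t + 1 - s = (t - s) + 1 := by ring
            rw [e3, ← Int.emod_add_emod, ← h1]
            have : ((τ t : ℕ) : ℤ) + 1 = G := by exact_mod_cast e5
            rw [this]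
            exact Int.emod_self
          rw [e] at h2
          exact_mod_cast h2
        rw [e5, e6, d3]
        exact d6
    by_cases hb : r.testBit (τ t) = true
    · rw [hb] at hd
      simp only [if_true] at hd
      exact ⟨1, by omega, Or.inr ⟨rfl, hbit t hb⟩⟩
    · rw [Bool.not_eq_true] at hb
      rw [hb] at hd
      simp only [Bool.false_eq_true, if_false] at hd
      exact ⟨0, by omega, Or.inl rfl⟩

lemma days_disjoint (L m m' : ℕ) (h : Nat.land m m' = 0) :
    Disjoint (days L m) (days L m') := by
  rw [Set.disjoint_left]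
  intro t h1 h2
  have h3 : (m &&& m').testBit (t % (L : ℤ)).toNat = true := by
    rw [Nat.testBit_land]
    simp only [days, Set.mem_ofPred_eq] at h1 h2
    rw [h1, h2]; rfl
  have h4 : m &&& m' = 0 := h
  rw [h4] at h3
  simp at h3

end Pool.Agent.Y573.Pin
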