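import Pool.Agent.Y573.Pin.Tree

/-! # Real-valued pinwheel scheduling: from boxes of folded instances to instances -/

set_option autoImplicit false

namespace Pool.Agent.Y573.Pin

lemma forall₂_get {α β : Type*} {R : α → β → Prop} {l1 : List α} {l2 : List β}
    (h : List.Forall₂ R l1 l2) : ∀ (i : ℕ) (x : α), l1[i]? = some x →
      ∃ y, l2[i]? = some y ∧ R x y := by
  induction h with
  | nil => intro i x hx; simp at hx
  | cons hab _ ih =>
    intro i x hx
    cases i with
    | zero =>
      simp only [List.getElem?_cons_zero, Option.some.injEq] at hx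
      subst hx
      exact ⟨_, by simp, hab⟩
    | succ i =>
      simp only [List.getElem?_cons_succ] at hx ⊢
      exact ih i x hx

lemma exists_sorted (t : List ℝ) : ∃ t' : List ℝ, t'.Perm t ∧ t'.Pairwise (· ≤ ·) := by
  classical
  exact ⟨t.insertionSort (· ≤ ·), List.perm_insertionSort _ _, List.pairwise_insertionSort _ _⟩

/-- The passage from folded instances to instances. -/
theorem fold_region {M Rm θ : ℕ} (hM : 0 < M) (hθ : 0 < θ) (VP LP : List ℕ) (vT n : ℕ)
    (hH : Holds M Rm θ (VP ++ List.replicate n vT) (LP ++ List.replicate n 0))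
    (hR : (Rm : ℝ) = M * (5 / 6 + (θ : ℝ)⁻¹)) (P t : List ℝ) (T : ℝ)
    (hT : ∀ x ∈ t, T < x) (hTθ : T ≤ (θ : ℝ) / 2) (hs : (P ++ t).Pairwise (· ≤ ·))
    (hPθ : ∀ x ∈ P, x ≤ (θ : ℝ) / 2) (hpos : ∀ x ∈ P ++ t, 0 < x)
    (hD : dens (P ++ t) ≤ 5 / 6) (hvT : (vT : ℝ) ≤ M * T)
    (hVP : List.Forall₂ (fun (v : ℕ) (x : ℝ) => (v : ℝ) < M * x) VP P)
    (hLP : List.Forall₂ (fun (l : ℕ) (x : ℝ) => (l : ℝ) * x ≤ M) LP P) : Sch (P ++ t) := by
  have hθr : (0 : ℝ) < θ := by exact_mod_cast hθ
  have hMr : (0 : ℝ) < M := by exact_mod_cast hM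
  obtain ⟨t', h1, h2, h3⟩ := fold_le (θ : ℝ) hθr t
    (fun x hx => hpos x (List.mem_append_right _ hx))
  obtain ⟨t'', hp, hst⟩ := exists_sorted t'
  apply h3
  apply sch_append_perm hp
  have hmem : ∀ x ∈ t'', 0 < x ∧ x ≤ (θ : ℝ) ∧ (x ∈ t ∨ (θ : ℝ) / 2 < x) := fun x hx =>
    h1 x (hp.mem_iff.mp hx)
  rw [List.pairwise_append] at hs
  have hlenP : VP.length = P.length := hVP.length_eq
  have hlenL : LP.length = P.length := hLP.length_eq
  have hpos' : ∀ x ∈ P ++ t'', 0 < x := by
    intro x hx
    rcases List.mem_append.mp hx with hx | hx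
    · exact hpos x (List.mem_append_left _ hx)
    · exact (hmem x hx).1
  apply hH (P ++ t'')
  · rw [List.pairwise_append]
    refine ⟨hs.1, hst, ?_⟩
    intro x hx y hy
    rcases (hmem y hy).2.2 with h | h
    · exact hs.2.2 x hx y h
    · exact (hPθ x hx).trans h.le
  · intro x hx
    rcases List.mem_append.mp hx with hx | hx
    · refine ⟨hpos x (List.mem_append_left _ hx), (hPθ x hx).trans (by linarith)⟩
    · exact ⟨(hmem x hx).1, (hmem x hx).2.1⟩
  · rw [hR, dens_append, dens_perm hp, mul_comm]
    apply mul_lt_mul_of_pos_left _ hMr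
    rw [dens_append] at hD
    linarith
  · intro j v hv
    by_cases hj : j < VP.length
    · rw [List.getElem?_append_left hj] at hv
      obtain ⟨y, hy1, hy2⟩ := forall₂_get hVP j v hv
      have hjP : j < P.length := by omega
      have hyP : y ∈ P := List.mem_of_getElem? hy1
      have hr : rr (P ++ t'') j = y⁻¹ := by
        unfold rr
        rw [List.getD_eq_getElem?_getD, List.getElem?_append_left hjP, hy1]
        rfl
      rw [hr]
      have hy0 := hpos y (List.mem_append_left _ hyP)
      rw [← div_eq_mul_inv, div_lt_iff₀ hy0]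
      exact hy2
    · rw [List.getElem?_append_right (not_lt.mp hj)] at hv
      have hv2 : v = vT := by
        have := List.mem_of_getElem? hv
        exact List.eq_of_mem_replicate this
      subst hv2
      by_cases hj2 : j < (P ++ t'').length
      · have hjP : P.length ≤ j := by omega
        have hr : rr (P ++ t'') j = ((P ++ t'')[j])⁻¹ := by
          unfold rr
          rw [List.getD_eq_getElem _ _ hj2]
        have hm : (P ++ t'')[j] ∈ t'' := by
          rw [List.getElem_append_right hjP]
          exact List.getElem_mem _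
        obtain ⟨y0, _, y2⟩ := hmem _ hm
        have hTy : T < (P ++ t'')[j] := by
          rcases y2 with h | h
          · exact hT _ h
          · exact lt_of_le_of_lt hTθ h
        rw [hr, ← div_eq_mul_inv, div_lt_iff₀ y0]
        exact lt_of_le_of_lt hvT (mul_lt_mul_of_pos_left hTy hMr)
      · have hr : rr (P ++ t'') j = 0 := by
          unfold rr
          rw [List.getD_eq_default _ _ (not_lt.mp hj2)]
          simp
        rw [hr, mul_zero]
        exact hMr
  · intro j lo hlo
    by_cases hj : j < LP.length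
    · rw [List.getElem?_append_left hj] at hlo
      obtain ⟨y, hy1, hy2⟩ := forall₂_get hLP j lo hlo
      have hjP : j < P.length := by omega
      have hyP : y ∈ P := List.mem_of_getElem? hy1
      have hr : rr (P ++ t'') j = y⁻¹ := by
        unfold rr
        rw [List.getD_eq_getElem?_getD, List.getElem?_append_left hjP, hy1]
        rfl
      rw [hr]
      have hy0 := hpos y (List.mem_append_left _ hyP)
      rw [← div_eq_mul_inv, le_div_iff₀ hy0]
      exact hy2
    · rw [List.getElem?_append_right (not_lt.mp hj)] at hlo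
      have hv2 : lo = 0 := by
        have := List.mem_of_getElem? hlo
        exact List.eq_of_mem_replicate this
      subst hv2
      have := rr_nonneg hpos' j
      push_cast
      positivity

/-- From day sets to a schedule. -/
theorem sched_of_sch {k : ℕ} (hk : 0 < k) (a : Fin k → ℝ) (h : Sch (List.ofFn a)) :
    ∃ S : ℤ → Fin k, ∀ i : Fin k, ∀ l : ℕ, 1 ≤ l → ∀ m : ℤ,
      l ≤ ((Finset.Ico m (m + ⌈(l : ℝ) * a i⌉)).filter (fun t => S t = i)).card := by
  classical
  obtain ⟨L, h1, h2, h3⟩ := h
  have hlen : L.length = k := by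
    have := congrArg List.length h1
    simpa using this
  have hget : ∀ i : Fin k, (L[i.1]'(by rw [hlen]; exact i.2)).1 = a i := by
    intro i
    have hi : i.1 < L.length := by rw [hlen]; exact i.2
    have h4 : (L.map Prod.fst)[i.1]? = (List.ofFn a)[i.1]? := by rw [h1]
    rw [List.getElem?_map, List.getElem?_eq_getElem hi] at h4
    simp only [Option.map_some, List.getElem?_ofFn, i.2, dif_pos, Option.some.injEq] at h4
    exact h4
  let Ts : Fin k → Set ℤ := fun i => (L[i.1]'(by rw [hlen]; exact i.2)).2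
  have hdisj : ∀ i j : Fin k, i ≠ j → ∀ t, t ∈ Ts i → t ∈ Ts j → False := by
    intro i j hij t hti htj
    rw [List.pairwise_iff_getElem] at h3
    rcases lt_trichotomy i.1 j.1 with hlt | heq | hlt
    · exact Set.disjoint_left.mp (h3 i.1 j.1 _ _ hlt) hti htj
    · exact hij (Fin.ext heq)
    · exact Set.disjoint_left.mp (h3 j.1 i.1 _ _ hlt) htj hti
  refine ⟨fun t => if h : ∃ i, t ∈ Ts i then h.choose else ⟨0, hk⟩, ?_⟩
  intro i l _ m
  have hg : Good (a i) (Ts i) := by
    rw [← hget i]
    exact h2 _ (List.getElem_mem _)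
  obtain ⟨s, hs1, hs2⟩ := hg m (m + ⌈(l : ℝ) * a i⌉) l (by
    push_cast
    have := Int.le_ceil ((l : ℝ) * a i)
    linarith)
  refine hs2.trans (Finset.card_le_card ?_)
  intro t ht
  obtain ⟨t1, t2, t3⟩ := hs1 t ht
  rw [Finset.mem_filter, Finset.mem_Ico]
  refine ⟨⟨t1, t2⟩, ?_⟩
  have hex : ∃ i, t ∈ Ts i := ⟨i, t3⟩
  show (if h : ∃ i, t ∈ Ts i then h.choose else ⟨0, hk⟩) = i
  rw [dif_pos hex]
  by_contra hne
  exact hdisj _ _ hne t hex.choose_spec t3

end Pool.Agent.Y573.Pin
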