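import Pool.Agent.Y573.Pin.Check

/-! # Real-valued pinwheel scheduling: trees of case distinctions -/

set_option autoImplicit false

namespace Pool.Agent.Y573.Pin

/-! ### the functions evaluated by the kernel -/

/-- density bound for the last of some consecutive tasks -/
def runok (p qM : ℕ) (l : List ℕ) : ℕ → ℕ → Bool :=
  List.rec (fun _ _ => false)
    (fun lo _ ih acc n =>
      cond (Nat.ble (Nat.mul p (Nat.add acc lo)) (Nat.mul (Nat.succ n) qM)) true
        (ih (Nat.add acc lo) (Nat.succ n))) l

/-- one task of a leaf -/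
def task (M L v ρ : ℕ) (rl : List ℕ) (p q e0 s acc R : ℕ) : Bool :=
  Nat.ble 1 p && (Nat.ble q p && (Nat.ble e0 p && (Nat.ble (Nat.succ s) L &&
    ((Nat.ble (Nat.mul p M) (Nat.mul v q) || runok p (Nat.mul q M) rl ρ 0) &&
      (Nat.beq (Nat.div R (Nat.pow 2 L)) 1 &&
        Nat.beq (Nat.land acc (rot L s (Nat.mod R (Nat.pow 2 L)))) 0)))))

/-- the day masks coded by `c` -/
def occc (c : ℕ) : ℕ :=
  occ (Nat.mod c 128) (Nat.mod (Nat.div c 128) 64) (Nat.mod (Nat.div c 8192) 128)
    (Nat.mod (Nat.div c 1073741824) 256) (Nat.div c 274877906944)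
    (Nat.mod (Nat.div c 8192) 128) 1

/-- a leaf: a periodic schedule -/
def leafGo (M L θ ρ : ℕ) (V : List ℕ) : List ℕ → ℕ → ℕ → List ℕ → Bool :=
  List.rec (fun _ c _ rl => Nat.beq c 0 && runok θ M (0 :: rl) ρ 0)
    (fun v _ ih LO c acc rl =>
      cond (Nat.beq c 0) (Nat.ble (Nat.mul θ M) v || runok θ M (LO.headD 0 :: rl) ρ 0)
        (task M L v ρ (LO.headD 0 :: rl) (Nat.mod c 128) (Nat.mod (Nat.div c 128) 64)
            (Nat.mod (Nat.div c 8192) 128) (Nat.mod (Nat.div c 1048576) 1024) acc (occc c) &&
          ih LO.tail (Nat.div (Nat.div c 274877906944)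
              (Nat.pow 32 (Nat.mod (Nat.div c 1073741824) 256)))
            (Nat.lor acc (rot L (Nat.mod (Nat.div c 1048576) 1024)
              (Nat.mod (occc c) (Nat.pow 2 L))))
            (LO.headD 0 :: rl))) V

/-- raise the entries from `j` on -/
def raiseV (X : ℕ) (V : List ℕ) : ℕ → List ℕ :=
  List.rec (fun _ => [])
    (fun v vs ih j => Nat.rec (cond (Nat.ble X v) (v :: vs) (X :: ih 0)) (fun j' _ => v :: ih j') j)
    V

/-- raise the entries up to `j` -/
def raiseL (X : ℕ) (LO : List ℕ) : ℕ → List ℕ :=
  List.rec (fun _ => [])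
    (fun lo los ih j => (cond (Nat.ble X lo) lo X) :: Nat.rec los (fun j' _ => ih j') j) LO

/-- sum of a list -/
def sm (l : List ℕ) : ℕ := List.rec 0 (fun x _ ih => Nat.add x ih) l

/-- trees of case distinctions -/
inductive Tr : Type
  | l (c : ℕ) : Tr
  | s (jw : ℕ) (a b : Tr) : Tr

/-- the checker -/
noncomputable def check (M Rm θ : ℕ) (t : Tr) : List ℕ → List ℕ → Bool :=
  Tr.rec (fun c V LO => Nat.ble 1 (Nat.mod c 1024) &&
      leafGo M (Nat.mod c 1024) θ (Nat.sub Rm (sm LO)) V LO (Nat.div c 1024) 0 [])
    (fun jw _ _ iha ihb V LO =>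
      iha (raiseV (Nat.div (Nat.mul (Nat.div jw 1024) M) (Nat.mod (Nat.div jw 16) 64)) V
          (Nat.mod jw 16)) LO &&
      ihb V (raiseL (Nat.div (Nat.mul (Nat.mod (Nat.div jw 16) 64) M) (Nat.div jw 1024)) LO
          (Nat.mod jw 16))) t

/-! ### the meaning of the states -/

/-- inverse periods -/
noncomputable def rr (A : List ℝ) (j : ℕ) : ℝ := (A.getD j 0)⁻¹

/-- All sorted instances in the box given by `V` and `LO`, with periods at most `θ` and scaled
density less than `Rm`, are schedulable. -/
def Holds (M Rm θ : ℕ) (V LO : List ℕ) : Prop :=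
  ∀ A : List ℝ, A.Pairwise (· ≤ ·) → (∀ x ∈ A, 0 < x ∧ x ≤ (θ : ℝ)) → dens A * M < Rm →
    (∀ j v : ℕ, V[j]? = some v → (v : ℝ) * rr A j < M) →
    (∀ j lo : ℕ, LO[j]? = some lo → (lo : ℝ) ≤ M * rr A j) → Sch A

lemma rr_nonneg {A : List ℝ} (hA : ∀ x ∈ A, 0 < x) (j : ℕ) : 0 ≤ rr A j := by
  unfold rr
  by_cases h : j < A.length
  · rw [List.getD_eq_getElem _ _ h]
    exact (inv_pos.mpr (hA _ (List.getElem_mem h))).le
  · rw [List.getD_eq_default _ _ (not_lt.mp h)]
    simp

lemma rr_anti {A : List ℝ} (hA : ∀ x ∈ A, 0 < x) (hs : A.Pairwise (· ≤ ·)) {i j : ℕ}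
    (hij : i ≤ j) : rr A j ≤ rr A i := by
  by_cases h : j < A.length
  · rcases Nat.lt_or_eq_of_le hij with hlt | rfl
    · unfold rr
      rw [List.getD_eq_getElem _ _ h, List.getD_eq_getElem _ _ (lt_of_le_of_lt hij h)]
      apply inv_anti₀ (hA _ (List.getElem_mem _))
      exact List.pairwise_iff_getElem.mp hs i j _ _ hlt
    · exact le_rfl
  · have : rr A j = 0 := by
      unfold rr
      rw [List.getD_eq_default _ _ (not_lt.mp h)]
      simp
    rw [this]
    exact rr_nonneg hA i

lemma rr_sum {A : List ℝ} (hA : ∀ x ∈ A, 0 < x) (N : ℕ) :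
    ∑ j ∈ Finset.range N, rr A j ≤ dens A := by
  induction A generalizing N with
  | nil =>
    have : ∀ j, rr [] j = 0 := by intro j; simp [rr]
    simp [this, dens]
  | cons x A ih =>
    cases N with
    | zero =>
      simp only [Finset.range_zero, Finset.sum_empty]
      exact dens_nonneg hA
    | succ N =>
      rw [Finset.sum_range_succ', dens_cons]
      have h1 : ∀ j, rr (x :: A) (j + 1) = rr A j := by intro j; simp [rr]
      have h2 : rr (x :: A) 0 = x⁻¹ := by simp [rr]
      simp only [h1, h2]
      have := ih (fun y hy => hA y (List.mem_cons_of_mem _ hy)) N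
      linarith

lemma sm_cons (x : ℕ) (l : List ℕ) : sm (x :: l) = x + sm l := rfl

lemma sm_eq (l : List ℕ) (N : ℕ) (hN : l.length ≤ N) :
    sm l = ∑ j ∈ Finset.range N, l.getD j 0 := by
  induction l generalizing N with
  | nil => simp [sm]
  | cons x l ih =>
    cases N with
    | zero => simp at hN
    | succ N =>
      rw [Finset.sum_range_succ', sm_cons, ih N (by simpa using hN)]
      simp only [List.getD_cons_succ, List.getD_cons_zero]
      ring

/-- reversed initial segments -/
def revg (g : ℕ → ℕ) : ℕ → List ℕ
  | 0 => []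
  | j + 1 => g j :: revg g j

lemma runok_nil (p qM acc n : ℕ) : runok p qM [] acc n = false := rfl

lemma runok_cons (p qM lo : ℕ) (l : List ℕ) (acc n : ℕ) : runok p qM (lo :: l) acc n =
    cond (Nat.ble (p * (acc + lo)) ((n + 1) * qM)) true (runok p qM l (acc + lo) (n + 1)) := rfl

lemma run_bound {M ρ : ℕ} {r : ℕ → ℝ} {g : ℕ → ℕ}
    (hr : ∀ i j, i ≤ j → r j ≤ r i)
    (hS : ∀ a b : ℕ, a ≤ b → ∑ i ∈ Finset.Ico a b, ((M : ℝ) * r i - g i) < ρ)
    (p qM : ℕ) (hp : 0 < p) : ∀ (j acc n : ℕ), (acc : ℝ) = ρ + ∑ i ∈ Finset.Ico j (j + n), (g i : ℝ) →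
      ∀ top, top + 1 = j + n → runok p qM (revg g j) acc n = true →
      (p : ℝ) * (M * r top) < qM := by
  intro j
  induction j with
  | zero =>
    intro acc n _ top _ h
    rw [revg, runok_nil] at h
    exact absurd h (by simp)
  | succ j ih =>
    intro acc n hacc top htop h
    rw [revg, runok_cons] at h
    have hacc' : ((acc + g j : ℕ) : ℝ) = ρ + ∑ i ∈ Finset.Ico j (j + (n + 1)), (g i : ℝ) := by
      push_cast
      rw [hacc, Finset.sum_eq_sum_Ico_succ_bot (show j < j + (n + 1) by omega)]
      have : j + (n + 1) = j + 1 + n := by ring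
      rw [this]
      ring
    by_cases hc : p * (acc + g j) ≤ (n + 1) * qM
    · have h1 := hS j (j + (n + 1)) (by omega)
      rw [Finset.sum_sub_distrib] at h1
      have h2 : ((n + 1 : ℕ) : ℝ) * (M * r top) ≤ ∑ i ∈ Finset.Ico j (j + (n + 1)), (M : ℝ) * r i := by
        have : ∑ _i ∈ Finset.Ico j (j + (n + 1)), (M : ℝ) * r top =
            ((n + 1 : ℕ) : ℝ) * (M * r top) := by
          rw [Finset.sum_const, Nat.card_Ico, nsmul_eq_mul]
          congr 2
          omega
        rw [← this]
        apply Finset.sum_le_sum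
        intro i hi
        rw [Finset.mem_Ico] at hi
        exact mul_le_mul_of_nonneg_left (hr i top (by omega)) (Nat.cast_nonneg M)
      have h3 : ((n + 1 : ℕ) : ℝ) * (M * r top) < ((acc + g j : ℕ) : ℝ) := by
        rw [hacc']; linarith
      have h4 : (p : ℝ) * ((acc + g j : ℕ) : ℝ) ≤ ((n + 1 : ℕ) : ℝ) * qM := by exact_mod_cast hc
      have hp' : (0 : ℝ) < p := by exact_mod_cast hp
      have hn' : (0 : ℝ) < ((n + 1 : ℕ) : ℝ) := by positivity
      have h5 := mul_lt_mul_of_pos_left h3 hp'
      have h6 : ((n + 1 : ℕ) : ℝ) * (p * (M * r top)) < ((n + 1 : ℕ) : ℝ) * qM := by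
        nlinarith
      exact lt_of_mul_lt_mul_left h6 hn'.le
    · have : Nat.ble (p * (acc + g j)) ((n + 1) * qM) = false := by
        rw [Bool.eq_false_iff]
        intro hb
        exact hc (Nat.le_of_ble_eq_true hb)
      rw [this, cond_false] at h
      exact ih (acc + g j) (n + 1) hacc' top (by omega) h

lemma leafGo_nil (M L θ ρ : ℕ) (LO : List ℕ) (c acc : ℕ) (rl : List ℕ) :
    leafGo M L θ ρ [] LO c acc rl = (Nat.beq c 0 && runok θ M (0 :: rl) ρ 0) := rfl

lemma leafGo_cons (M L θ ρ v : ℕ) (V LO : List ℕ) (c acc : ℕ) (rl : List ℕ) :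
    leafGo M L θ ρ (v :: V) LO c acc rl =
      cond (Nat.beq c 0) (Nat.ble (θ * M) v || runok θ M (LO.headD 0 :: rl) ρ 0)
        (task M L v ρ (LO.headD 0 :: rl) (c % 128) (c / 128 % 64)
            (c / 8192 % 128) (c / 1048576 % 1024) acc (occc c) &&
          leafGo M L θ ρ V LO.tail (c / 274877906944 / 32 ^ (c / 1073741824 % 256))
            (acc ||| rot L (c / 1048576 % 1024) (occc c % 2 ^ L))
            (LO.headD 0 :: rl)) := rfl

lemma leafGo_spec {M L θ ρ : ℕ} (hM : 0 < M) (hL : 0 < L) (hθ : 0 < θ) (A : List ℝ)
    (hA : ∀ x ∈ A, 0 < x ∧ x ≤ (θ : ℝ)) (hs : A.Pairwise (· ≤ ·)) (g : ℕ → ℕ)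
    (hS : ∀ a b : ℕ, a ≤ b → ∑ i ∈ Finset.Ico a b, ((M : ℝ) * rr A i - g i) < ρ) :
    ∀ (V LO : List ℕ) (c acc j : ℕ),
      (∀ i v : ℕ, V[i]? = some v → (v : ℝ) * rr A (j + i) < M) →
      (∀ i, LO.getD i 0 = g (j + i)) → (V.length ≤ 0 → g j = 0) →
      (∀ i, V.length ≤ i → g (j + i) = 0) →
      leafGo M L θ ρ V LO c acc (revg g j) = true →
      ∃ Lst : List (ℝ × Set ℤ), Lst.map Prod.fst = A.drop j ∧ (∀ x ∈ Lst, Good x.1 x.2) ∧
        Lst.Pairwise (fun x y => Disjoint x.2 y.2) ∧
        ∀ x ∈ Lst, ∃ m, x.2 = days L m ∧ Nat.land acc m = 0 := by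
  have hpos : ∀ x ∈ A, 0 < x := fun x hx => (hA x hx).1
  have hMr : (0 : ℝ) < M := by exact_mod_cast hM
  have hθr : (0 : ℝ) < θ := by exact_mod_cast hθ
  have hanti : ∀ i j, i ≤ j → rr A j ≤ rr A i := fun i j hij => rr_anti hpos hs hij
  -- absent tasks
  have habs : ∀ j, (θ : ℝ) * (M * rr A j) < M → A.drop j = [] := by
    intro j hj
    rw [List.drop_eq_nil_iff]
    by_contra hc
    have hj2 : j < A.length := not_le.mp hc
    have h1 : rr A j = (A[j])⁻¹ := by
      unfold rr
      rw [List.getD_eq_getElem _ _ hj2]
    have h2 := hA _ (List.getElem_mem hj2)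
    have h3 : (θ : ℝ)⁻¹ ≤ (A[j])⁻¹ := inv_anti₀ h2.1 h2.2
    rw [h1] at hj
    have h4 : (θ : ℝ) * (M * (θ : ℝ)⁻¹) ≤ θ * (M * (A[j])⁻¹) := by
      apply mul_le_mul_of_nonneg_left _ hθr.le
      exact mul_le_mul_of_nonneg_left h3 hMr.le
    have h5 : (θ : ℝ) * (M * (θ : ℝ)⁻¹) = M := by field_simp
    linarith
  have hrun : ∀ (p qM j : ℕ), 0 < p → runok p qM (revg g (j + 1)) ρ 0 = true →
      (p : ℝ) * (M * rr A j) < qM := by
    intro p qM j hp h
    exact run_bound hanti hS p qM hp (j + 1) ρ 0 (by simp) j rfl h
  intro V
  induction V with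
  | nil =>
    intro LO c acc j _ hLO hg0 _ h
    rw [leafGo_nil, Bool.and_eq_true] at h
    have hg : g j = 0 := hg0 le_rfl
    have h2 : runok θ M (revg g (j + 1)) ρ 0 = true := by
      rw [revg, hg]; exact h.2
    have := habs j (hrun θ M j hθ h2)
    exact ⟨[], by simp [this], by simp, List.Pairwise.nil, by simp⟩
  | cons v V ih =>
    intro LO c acc j hV hLO hg0 hgl h
    rw [leafGo_cons] at h
    have hhead : LO.headD 0 = g j := by
      have := hLO 0
      rw [add_zero] at this
      rw [← this]
      cases LO <;> simp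
    have hrev : LO.headD 0 :: revg g j = revg g (j + 1) := by
      rw [revg, hhead]
    rw [hrev] at h
    have hv : (v : ℝ) * rr A j < M := by
      have := hV 0 v (by simp)
      rwa [add_zero] at this
    by_cases hc : c = 0
    · subst hc
      rw [show Nat.beq 0 0 = true from rfl, cond_true, Bool.or_eq_true] at h
      have h1 : (θ : ℝ) * (M * rr A j) < M := by
        rcases h with h | h
        · have h2 : (((θ * M : ℕ)) : ℝ) ≤ v := by exact_mod_cast Nat.le_of_ble_eq_true h
          have h3 := mul_le_mul_of_nonneg_right h2 (rr_nonneg hpos j)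
          push_cast at h3
          linarith
        · exact hrun θ M j hθ h
      have := habs j h1
      exact ⟨[], by simp [this], by simp, List.Pairwise.nil, by simp⟩
    · have hb : Nat.beq c 0 = false := by
        rw [Bool.eq_false_iff]
        intro hc2
        exact hc (Nat.eq_of_beq_eq_true hc2)
      rw [hb, cond_false, Bool.and_eq_true] at h
      obtain ⟨ht, hrest⟩ := h
      set p := c % 128 with hp
      set q := c / 128 % 64 with hq
      set e0 := c / 8192 % 128 with he0
      set s := c / 1048576 % 1024 with hs'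
      set mask := rot L s (occc c % 2 ^ L) with hmask
      unfold task at ht
      rw [Bool.and_eq_true, Bool.and_eq_true, Bool.and_eq_true, Bool.and_eq_true,
        Bool.and_eq_true, Bool.and_eq_true, Bool.or_eq_true] at ht
      obtain ⟨t1, t2, t3, t6, t4, t7, t5⟩ := ht
      have t1 := Nat.le_of_ble_eq_true t1
      have t2 := Nat.le_of_ble_eq_true t2
      have t3 := Nat.le_of_ble_eq_true t3
      have t6 := Nat.le_of_ble_eq_true t6
      have t7 := Nat.eq_of_beq_eq_true t7
      have t5 := Nat.eq_of_beq_eq_true t5
      by_cases hj : j < A.length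
      · have hrj : rr A j = (A[j])⁻¹ := by
          unfold rr
          rw [List.getD_eq_getElem _ _ hj]
        have hAj := (hA _ (List.getElem_mem hj)).1
        have hpr : (0 : ℝ) < p := by exact_mod_cast t1
        have hcoord : (p : ℝ) * (M * rr A j) < q * M := by
          rcases t4 with t4 | t4
          · have h2 : (((p * M : ℕ)) : ℝ) ≤ ((v * q : ℕ) : ℝ) := by
              exact_mod_cast Nat.le_of_ble_eq_true t4
            have h3 := mul_le_mul_of_nonneg_right h2 (rr_nonneg hpos j)
            push_cast at h3
            have hq0 : 0 < q := by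
              rcases Nat.eq_zero_or_pos q with h | h
              · exfalso
                rw [h] at h2
                push_cast at h2
                have : (0 : ℝ) < p * M := mul_pos hpr hMr
                linarith
              · exact h
            have hqr : (0 : ℝ) < q := by exact_mod_cast hq0
            have h4 := mul_lt_mul_of_pos_left hv hqr
            nlinarith
          · have := hrun p (Nat.mul q M) j t1 t4
            have e : ((Nat.mul q M : ℕ) : ℝ) = q * M := by
              show ((q * M : ℕ) : ℝ) = q * M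
              push_cast; ring
            rwa [e] at this
        have hpq : (p : ℝ) < A[j] * q := by
          rw [hrj] at hcoord
          have h1 : (p : ℝ) * (M * (A[j])⁻¹) * A[j] < q * M * A[j] :=
            mul_lt_mul_of_pos_right hcoord hAj
          have h2 : (p : ℝ) * (M * (A[j])⁻¹) * A[j] = p * M := by field_simp
          rw [h2] at h1
          have h3 : (p : ℝ) * M < (A[j] * q) * M := by nlinarith
          exact lt_of_mul_lt_mul_right h3 hMr.le
        have hgood : Good A[j] (days L mask) := by
          exact good_of_occ A[j] p q e0 (c / 1073741824 % 256) (c / 274877906944) L s t1 t2 hpq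
            t3 hL t6 t7
        obtain ⟨Lst, g1, g2, g3, g4⟩ := ih LO.tail
          (c / 274877906944 / 32 ^ (c / 1073741824 % 256)) (acc ||| mask) (j + 1) (by
            intro i w hw
            have := hV (i + 1) w (by simpa using hw)
            rwa [show j + (i + 1) = j + 1 + i by ring] at this) (by
            intro i
            have := hLO (i + 1)
            rw [show j + (i + 1) = j + 1 + i by ring] at this
            rw [← this]
            cases LO <;> simp) (by
            intro hl
            have := hgl 1 (by simpa using hl)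
            exact this) (by
            intro i hi
            have := hgl (i + 1) (by simpa using hi)
            rwa [show j + (i + 1) = j + 1 + i by ring] at this) hrest
        refine ⟨(A[j], days L mask) :: Lst, ?_, ?_, ?_, ?_⟩
        · rw [List.map_cons, g1, List.drop_eq_getElem_cons hj]
        · intro x hx
          rcases List.mem_cons.mp hx with rfl | hx
          · exact hgood
          · exact g2 x hx
        · rw [List.pairwise_cons]
          refine ⟨?_, g3⟩
          intro y hy
          obtain ⟨m, hm1, hm2⟩ := g4 y hy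
          rw [hm1]
          apply days_disjoint
          apply Nat.eq_of_testBit_eq
          intro i
          have h5 : ((acc ||| mask) &&& m).testBit i = (0 : ℕ).testBit i := by
            show (Nat.land (acc ||| mask) m).testBit i = _
            rw [hm2]
          rw [Nat.testBit_land, Nat.testBit_lor] at h5
          show (mask &&& m).testBit i = _
          rw [Nat.testBit_land]
          revert h5
          cases acc.testBit i <;> cases mask.testBit i <;> cases m.testBit i <;> simp
        · intro x hx
          rcases List.mem_cons.mp hx with rfl | hx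
          · exact ⟨mask, rfl, t5⟩
          · obtain ⟨m, hm1, hm2⟩ := g4 x hx
            refine ⟨m, hm1, ?_⟩
            apply Nat.eq_of_testBit_eq
            intro i
            have h5 : ((acc ||| mask) &&& m).testBit i = (0 : ℕ).testBit i := by
              show (Nat.land (acc ||| mask) m).testBit i = _
              rw [hm2]
            rw [Nat.testBit_land, Nat.testBit_lor] at h5
            show (acc &&& m).testBit i = _
            rw [Nat.testBit_land]
            revert h5
            cases acc.testBit i <;> cases mask.testBit i <;> cases m.testBit i <;> simp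
      · have : A.drop j = [] := List.drop_eq_nil_iff.mpr (not_lt.mp hj)
        exact ⟨[], by simp [this], by simp, List.Pairwise.nil, by simp⟩

lemma raiseV_nil (X j : ℕ) : raiseV X [] j = [] := rfl
lemma raiseV_zero (X v : ℕ) (V : List ℕ) :
    raiseV X (v :: V) 0 = cond (Nat.ble X v) (v :: V) (X :: raiseV X V 0) := rfl
lemma raiseV_succ (X v j : ℕ) (V : List ℕ) :
    raiseV X (v :: V) (j + 1) = v :: raiseV X V j := rfl

lemma raiseV_get (X : ℕ) : ∀ (V : List ℕ) (j i w : ℕ), (raiseV X V j)[i]? = some w →
    V[i]? = some w ∨ (j ≤ i ∧ w = X) := by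
  intro V
  induction V with
  | nil =>
    intro j i w h
    rw [raiseV_nil] at h
    simp at h
  | cons v V ih =>
    intro j i w h
    cases j with
    | zero =>
      rw [raiseV_zero] at h
      by_cases hc : X ≤ v
      · rw [Nat.ble_eq_true_of_le hc, cond_true] at h
        exact Or.inl h
      · have : Nat.ble X v = false := by
          rw [Bool.eq_false_iff]
          intro hb
          exact hc (Nat.le_of_ble_eq_true hb)
        rw [this, cond_false] at h
        cases i with
        | zero =>
          simp only [List.getElem?_cons_zero, Option.some.injEq] at h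
          exact Or.inr ⟨le_rfl, h.symm⟩
        | succ i =>
          simp only [List.getElem?_cons_succ] at h ⊢
          rcases ih 0 i w h with h | h
          · exact Or.inl h
          · exact Or.inr ⟨by omega, h.2⟩
    | succ j =>
      rw [raiseV_succ] at h
      cases i with
      | zero =>
        simp only [List.getElem?_cons_zero] at h ⊢
        exact Or.inl h
      | succ i =>
        simp only [List.getElem?_cons_succ] at h ⊢
        rcases ih j i w h with h | h
        · exact Or.inl h
        · exact Or.inr ⟨by omega, h.2⟩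

lemma raiseL_nil (X j : ℕ) : raiseL X [] j = [] := rfl
lemma raiseL_zero (X v : ℕ) (V : List ℕ) :
    raiseL X (v :: V) 0 = (cond (Nat.ble X v) v X) :: V := rfl
lemma raiseL_succ (X v j : ℕ) (V : List ℕ) :
    raiseL X (v :: V) (j + 1) = (cond (Nat.ble X v) v X) :: raiseL X V j := rfl

lemma raiseL_get (X : ℕ) : ∀ (V : List ℕ) (j i w : ℕ), (raiseL X V j)[i]? = some w →
    V[i]? = some w ∨ (i ≤ j ∧ w = X) := by
  intro V
  induction V with
  | nil =>
    intro j i w h
    rw [raiseL_nil] at h
    simp at h
  | cons v V ih =>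
    intro j i w h
    have hhead : ∀ w, some (cond (Nat.ble X v) v X) = some w → some v = some w ∨ w = X := by
      intro w hw
      cases hb : Nat.ble X v
      · rw [hb, cond_false] at hw
        right
        simpa using hw.symm
      · rw [hb, cond_true] at hw
        left
        exact hw
    cases j with
    | zero =>
      rw [raiseL_zero] at h
      cases i with
      | zero =>
        simp only [List.getElem?_cons_zero] at h ⊢
        rcases hhead w h with h | h
        · exact Or.inl h
        · exact Or.inr ⟨le_rfl, h⟩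
      | succ i =>
        simp only [List.getElem?_cons_succ] at h ⊢
        exact Or.inl h
    | succ j =>
      rw [raiseL_succ] at h
      cases i with
      | zero =>
        simp only [List.getElem?_cons_zero] at h ⊢
        rcases hhead w h with h | h
        · exact Or.inl h
        · exact Or.inr ⟨by omega, h⟩
      | succ i =>
        simp only [List.getElem?_cons_succ] at h ⊢
        rcases ih j i w h with h | h
        · exact Or.inl h
        · exact Or.inr ⟨by omega, h.2⟩

lemma raiseV_length (X : ℕ) : ∀ (V : List ℕ) (j : ℕ), (raiseV X V j).length = V.length := by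
  intro V
  induction V with
  | nil => intro j; rfl
  | cons v V ih =>
    intro j
    cases j with
    | zero =>
      rw [raiseV_zero]
      cases Nat.ble X v
      · rw [cond_false, List.length_cons, ih, List.length_cons]
      · rfl
    | succ j => rw [raiseV_succ, List.length_cons, ih, List.length_cons]

lemma raiseL_length (X : ℕ) : ∀ (V : List ℕ) (j : ℕ), (raiseL X V j).length = V.length := by
  intro V
  induction V with
  | nil => intro j; rfl
  | cons v V ih =>
    intro j
    cases j with
    | zero => rw [raiseL_zero]; rfl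
    | succ j => rw [raiseL_succ, List.length_cons, ih, List.length_cons]

lemma check_l (M Rm θ c : ℕ) (V LO : List ℕ) : check M Rm θ (Tr.l c) V LO =
    (Nat.ble 1 (c % 1024) &&
      leafGo M (c % 1024) θ (Rm - sm LO) V LO (c / 1024) 0 []) := rfl

lemma check_s (M Rm θ jw : ℕ) (a b : Tr) (V LO : List ℕ) : check M Rm θ (Tr.s jw a b) V LO =
    (check M Rm θ a (raiseV (jw / 1024 * M / (jw / 16 % 64)) V (jw % 16)) LO &&
      check M Rm θ b V (raiseL (jw / 16 % 64 * M / (jw / 1024)) LO (jw % 16))) := rfl

theorem check_sound {M Rm θ : ℕ} (hM : 0 < M) (hθ : 0 < θ) : ∀ (t : Tr) (V LO : List ℕ),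
    LO.length ≤ V.length → check M Rm θ t V LO = true → Holds M Rm θ V LO := by
  have hMr : (0 : ℝ) < M := by exact_mod_cast hM
  intro t
  induction t with
  | l c =>
    intro V LO hlen h A hs hA hD hV hLO
    rw [check_l, Bool.and_eq_true] at h
    have hpos : ∀ x ∈ A, 0 < x := fun x hx => (hA x hx).1
    have hL : 0 < c % 1024 := Nat.le_of_ble_eq_true h.1
    have hg : ∀ j, ((LO.getD j 0 : ℕ) : ℝ) ≤ M * rr A j := by
      intro j
      by_cases hj : j < LO.length
      · rw [List.getD_eq_getElem _ _ hj]
        exact hLO j _ (List.getElem?_eq_getElem hj)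
      · rw [List.getD_eq_default _ _ (not_lt.mp hj)]
        have := rr_nonneg hpos j
        push_cast
        positivity
    have hS : ∀ a b : ℕ, a ≤ b →
        ∑ i ∈ Finset.Ico a b, ((M : ℝ) * rr A i - (fun j => LO.getD j 0) i) <
          ((Rm - sm LO : ℕ) : ℝ) := by
      intro a b hab
      have h1 : ∑ i ∈ Finset.Ico a b, ((M : ℝ) * rr A i - (fun j => LO.getD j 0) i) ≤
          ∑ i ∈ Finset.range (max b LO.length), ((M : ℝ) * rr A i - (fun j => LO.getD j 0) i) := by
        apply Finset.sum_le_sum_of_subset_of_nonneg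
        · intro i hi
          rw [Finset.mem_Ico] at hi
          rw [Finset.mem_range]
          exact lt_of_lt_of_le hi.2 (le_max_left _ _)
        · intro i _ _
          have := hg i
          simp only
          linarith
      have h6 : ∑ i ∈ Finset.range (max b LO.length),
          ((M : ℝ) * rr A i - (fun j => LO.getD j 0) i) =
          (M : ℝ) * ∑ i ∈ Finset.range (max b LO.length), rr A i -
            ∑ i ∈ Finset.range (max b LO.length), (((fun j => LO.getD j 0) i : ℕ) : ℝ) := by
        rw [Finset.sum_sub_distrib, Finset.mul_sum]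
      have h2 := rr_sum hpos (max b LO.length)
      have h3 : (((sm LO : ℕ)) : ℝ) =
          ∑ i ∈ Finset.range (max b LO.length), (((fun j => LO.getD j 0) i : ℕ) : ℝ) := by
        rw [sm_eq LO (max b LO.length) (le_max_right _ _)]
        push_cast
        rfl
      have h4 : (Rm : ℝ) ≤ ((Rm - sm LO : ℕ) : ℝ) + (sm LO : ℕ) := by
        have : Rm ≤ (Rm - sm LO) + sm LO := by omega
        exact_mod_cast this
      have h5 : (M : ℝ) * ∑ i ∈ Finset.range (max b LO.length), rr A i ≤ M * dens A :=
        mul_le_mul_of_nonneg_left h2 hMr.le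
      rw [h6, ← h3] at h1
      linarith [mul_comm (M : ℝ) (dens A)]
    obtain ⟨Lst, e1, e2, e3, -⟩ := leafGo_spec hM hL hθ A hA hs (fun j => LO.getD j 0) hS V LO
      (c / 1024) 0 0 (by simpa using hV) (by intro i; simp) (by
        intro hl
        show LO.getD 0 0 = 0
        rw [List.getD_eq_default _ _ (by omega)]) (by
        intro i hi
        show LO.getD (0 + i) 0 = 0
        rw [List.getD_eq_default _ _ (by omega)]) h.2
    exact ⟨Lst, by simpa using e1, e2, e3⟩
  | s jw a b iha ihb =>
    intro V LO hlen h A hs hA hD hV hLO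
    rw [check_s, Bool.and_eq_true] at h
    have hpos : ∀ x ∈ A, 0 < x := fun x hx => (hA x hx).1
    set j := jw % 16
    set q := jw / 16 % 64
    set p := jw / 1024
    by_cases hc : (p : ℝ) * rr A j < q
    · apply iha _ LO (by rw [raiseV_length]; exact hlen) h.1 A hs hA hD _ hLO
      intro i w hw
      rcases raiseV_get _ V j i w hw with hw | ⟨hij, hw⟩
      · exact hV i w hw
      · subst hw
        have hq : 0 < q := by
          rcases Nat.eq_zero_or_pos q with h0 | h0
          · exfalso
            rw [h0] at hc
            have := rr_nonneg hpos j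
            have hp0 : (0 : ℝ) ≤ p := Nat.cast_nonneg _
            push_cast at hc
            nlinarith
          · exact h0
        have hqr : (0 : ℝ) < q := by exact_mod_cast hq
        have h1 : ((p * M / q : ℕ) : ℝ) * q ≤ p * M := by
          exact_mod_cast Nat.div_mul_le_self (p * M) q
        have h2 := rr_anti hpos hs hij
        have h3 := rr_nonneg hpos i
        have h4 : ((p * M / q : ℕ) : ℝ) * rr A i * q < M * q := by
          calc ((p * M / q : ℕ) : ℝ) * rr A i * q = ((p * M / q : ℕ) : ℝ) * q * rr A i := by ring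
            _ ≤ p * M * rr A i := mul_le_mul_of_nonneg_right h1 h3
            _ ≤ p * M * rr A j := mul_le_mul_of_nonneg_left h2 (by positivity)
            _ = M * (p * rr A j) := by ring
            _ < M * q := mul_lt_mul_of_pos_left hc hMr
        exact lt_of_mul_lt_mul_right h4 hqr.le
    · apply ihb V _ (by rw [raiseL_length]; exact hlen) h.2 A hs hA hD hV
      intro i w hw
      rcases raiseL_get _ LO j i w hw with hw | ⟨hij, hw⟩
      · exact hLO i w hw
      · subst hw
        rw [not_lt] at hc
        have h2 := rr_anti hpos hs hij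
        rcases Nat.eq_zero_or_pos p with h0 | h0
        · rw [h0, Nat.div_zero]
          have := rr_nonneg hpos i
          push_cast
          positivity
        · have hpr : (0 : ℝ) < p := by exact_mod_cast h0
          have h1 : ((q * M / p : ℕ) : ℝ) * p ≤ q * M := by
            exact_mod_cast Nat.div_mul_le_self (q * M) p
          have h4 : ((q * M / p : ℕ) : ℝ) * p ≤ M * rr A i * p := by
            calc ((q * M / p : ℕ) : ℝ) * p ≤ q * M := h1
              _ ≤ (p * rr A j) * M := mul_le_mul_of_nonneg_right hc hMr.le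
              _ = M * p * rr A j := by ring
              _ ≤ M * p * rr A i := mul_le_mul_of_nonneg_left h2 (by positivity)
              _ = M * rr A i * p := by ring
          exact le_of_mul_le_mul_right h4 hpr

end Pool.Agent.Y573.Pin
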